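import Pool.Agent.Q59.EC.Fam2

/-!
# Degrees for which a power of `p` is minus one modulo all odd prime divisors
-/

namespace Pool.Agent.Q59.EC

open Finset Pool.Agent.H916R2 Pool.Agent.H916Q Pool.Agent.Y2.Cv
open Pool.Agent.H916T (IsTate SurfaceTate Standard W)
open Pool.Agent.H916Z (Link ZBase Rel0 addOrderOf_dvd_level)
open Pool.Agent.H916Y (Dead dead_elem link_parity2 isTate_add isTate_zero isTate_iota
  surface_iota parity_main countP_iota)

variable {p : ℕ} {A : ∀ M : ℕ, Multiset (ZMod M) → Prop}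

/-- **Supersingular degrees.** -/
theorem AdmC.super (hA : AdmC p A) {m : ℕ} (hp : p.Prime) (hm : 0 < m) (hpm : p.Coprime m)
    {j : ℕ} (hj : ∀ q : ℕ, q.Prime → q ∣ m → q ≠ 2 → q ∣ p ^ j + 1)
    {s : Multiset (ZMod m)} (hs : IsTate p m s) : A m s := by
  classical
  have hz : NeZero m := ⟨hm.ne'⟩
  have hzM : NeZero (1 * m) := ⟨by omega⟩
  have hpM : p.Coprime (1 * m) := by rwa [one_mul]
  refine hA.parity hp hm one_pos hpM hs 0 (by simp) ?_
  have hT : IsTate p (1 * m) (s.map (iota 1 : ZMod m → ZMod (1 * m)) +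
      (0 : Multiset (Multiset (ZMod (1 * m)))).sum) := by
    rw [Multiset.sum_zero, add_zero]
    exact isTate_iota rfl hpM hs
  intro a
  have key := link_parity2 (p := p) hT.1 hT.2.1 (fun S => S.Nonempty ∧ Dead p S)
    (fun S hS a ha => dead_elem S hS.1 hS.2 a ha) ?_ a
  · exact key
  · intro S hSne h2S hnD
    have hnD' : ¬ Dead p S := fun h => hnD ⟨hSne, h⟩
    by_cases hex : ∃ b ∈ (s.map (iota 1 : ZMod m → ZMod (1 * m)) +
      (0 : Multiset (Multiset (ZMod (1 * m)))).sum), Supp S b
    · obtain ⟨b, _, hb⟩ := hex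
      have hb' : (addOrderOf b).primeFactors = S := hb
      exfalso
      apply hnD'
      refine ⟨j, ?_⟩
      have hpr : ∀ q ∈ S, q.Prime ∧ q ∣ m ∧ q ≠ 2 := by
        intro q hq
        rw [← hb'] at hq
        have h1 := Nat.prime_of_mem_primeFactors hq
        have h2 := (Nat.dvd_of_mem_primeFactors hq).trans (addOrderOf_dvd_level b)
        rw [one_mul] at h2
        refine ⟨h1, h2, fun h3 => ?_⟩
        rw [h3, hb'] at hq
        exact h2S hq
      refine Finset.prod_primes_dvd _ (fun q hq => (hpr q hq).1.prime) fun q hq => ?_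
      exact hj q (hpr q hq).1 (hpr q hq).2.1 (hpr q hq).2.2
    · push Not at hex
      have h0 : (s.map (iota 1 : ZMod m → ZMod (1 * m)) +
          (0 : Multiset (Multiset (ZMod (1 * m)))).sum).countP (Supp S) = 0 :=
        Multiset.countP_eq_zero.mpr hex
      rw [h0]; exact Even.zero

end Pool.Agent.Q59.EC
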