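import Pool.Agent.H916Y.Fams3
import Pool.Agent.Y2.Cv.Families

/-!
# Families of algebraic characters in characteristic `p`, and the parity criterion with witnesses
-/

namespace Pool.Agent.Q59.EC

open Finset Pool.Agent.H916R2 Pool.Agent.H916Q Pool.Agent.Y2.Cv
open Pool.Agent.H916T (IsTate SurfaceTate Standard W)
open Pool.Agent.H916Z (Link ZBase Rel0)
open Pool.Agent.H916Y (Dead)

/-- Generated by pairs, standard characters, characters with four entries, curve products. -/
def AlgebraicLine (m : ℕ) (s : Multiset (ZMod m)) : Prop :=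
  (Even m → Generated m (SurfaceOrCurveProduct m) s) ∧
    (Odd m → Generated (2 * m) (SurfaceOrCurveProduct (2 * m))
      (s.map fun a => ((2 * a.val : ℕ) : ZMod (2 * m))))

/-- the closure properties of the family of the characters of algebraic classes -/
structure AdmC (p : ℕ) (A : ∀ M : ℕ, Multiset (ZMod M) → Prop) : Prop where
  pair : ∀ M, 0 < M → p.Coprime M → ∀ a : ZMod M, a ≠ 0 → A M {a, -a}
  surface : ∀ M, 0 < M → p.Coprime M → ∀ s, SurfaceTate p M s → A M s
  standard : ∀ M, 0 < M → p.Coprime M → ∀ q : ℕ, q.Prime → q ∣ M → ∀ s, Standard q M s → A M s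
  hodge : ∀ M, 0 < M → p.Coprime M → ∀ s, IsHodge M s → s ≠ 0 → AlgebraicLine M s → A M s
  join : ∀ M, 0 < M → p.Coprime M → ∀ s t, A M s → A M t → A M (s + t)
  cancel : ∀ M, 0 < M → p.Coprime M → ∀ a s, A M (a ::ₘ -a ::ₘ s) → A M s
  descend : ∀ M N, 0 < M → 0 < N → p.Coprime M → p.Coprime N → ∀ s : Multiset (ZMod M),
    A (N * M) (s.map fun a => ((N * a.val : ℕ) : ZMod (N * M))) → A M s

variable {p : ℕ} {A : ∀ M : ℕ, Multiset (ZMod M) → Prop}

lemma AdmC.gen (hA : AdmC p A) {M : ℕ} (hM : 0 < M) (hpM : p.Coprime M) {s : Multiset (ZMod M)}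
    (h : Pool.Agent.H916T.Generated M (ZBase p M) s) : A M s := by
  induction h with
  | ofBase s hs =>
    rcases hs with h | ⟨q, hq, hqM, h⟩
    · exact hA.surface M hM hpM s h
    · exact hA.standard M hM hpM q hq hqM s h
  | pair a ha => exact hA.pair M hM hpM a ha
  | join s t _ _ ihs iht => exact hA.join M hM hpM s t ihs iht
  | cancel a s _ ih => exact hA.cancel M hM hpM a s ih

lemma AdmC.zero (hA : AdmC p A) (hp : p.Prime) {M : ℕ} (hM : 0 < M) (hpM : p.Coprime M) :
    A M 0 := by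
  have hN : 0 < p + 1 := Nat.succ_pos p
  have hpN : p.Coprime (p + 1) := by simp
  have h2 : 1 < (p + 1) * M := by
    have := hp.one_lt
    nlinarith
  have : Fact (1 < (p + 1) * M) := ⟨h2⟩
  have hpNM : p.Coprime ((p + 1) * M) := Nat.Coprime.mul_right hpN hpM
  have h0 : A ((p + 1) * M) 0 :=
    hA.cancel _ (by omega) hpNM 1 0 (hA.pair _ (by omega) hpNM 1 one_ne_zero)
  refine hA.descend M (p + 1) hM hN hpM hpN 0 ?_
  rw [Multiset.map_zero]
  exact h0

lemma AdmC.cancel_multi (hA : AdmC p A) {M : ℕ} (hM : 0 < M) (hpM : p.Coprime M)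
    (t : Multiset (ZMod M)) : ∀ s : Multiset (ZMod M), A M (s + (t + t.map Neg.neg)) → A M s := by
  induction t using Multiset.induction_on with
  | empty => intro s h; simpa using h
  | cons a t ih =>
    intro s h
    apply ih
    apply hA.cancel M hM hpM a
    have e : a ::ₘ -a ::ₘ (s + (t + t.map Neg.neg)) =
        s + ((a ::ₘ t) + (a ::ₘ t).map Neg.neg) := by
      rw [Multiset.map_cons, ← Multiset.singleton_add a, ← Multiset.singleton_add (-a),
        ← Multiset.singleton_add a, ← Multiset.singleton_add (-a)]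
      abel
    rw [e]
    exact h

lemma isTate_of_hodge {m : ℕ} [NeZero m] (hpm : p.Coprime m) {s : Multiset (ZMod m)}
    (hs : IsHodge m s) : IsTate p m s := by
  refine ⟨hs.1, hs.2.1, hs.2.2.1, fun t => ?_⟩
  have hu := Pool.Agent.H916T.isUnit_p hpm
  rw [mul_sum]
  have h1 : ∀ j ∈ range (orderOf (p : ZMod m)),
      2 * (s.map fun a => ((p : ZMod m) ^ j * ((t : ZMod m) * a)).val).sum =
        m * Multiset.card s := fun j _ => by
    have h2 := hs.2.2.2 ((hu.pow j).unit * t)
    rw [← h2]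
    congr 3
    funext a
    rw [Units.val_mul, IsUnit.unit_spec, mul_assoc]
  rw [sum_congr rfl h1, sum_const, card_range, smul_eq_mul]

/-- A removable Tate character. -/
def Wit (p : ℕ) (A : ∀ M : ℕ, Multiset (ZMod M) → Prop) (M : ℕ) (w : Multiset (ZMod M)) : Prop :=
  IsTate p M w ∧ A M (w.map Neg.neg)

lemma AdmC.wit_surface (hA : AdmC p A) {M : ℕ} [NeZero M] (hpM : p.Coprime M)
    {w : Multiset (ZMod M)} (hw : SurfaceTate p M w) : Wit p A M w :=
  ⟨hw.1, hA.surface M (NeZero.pos M) hpM _ (hw.neg hpM)⟩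

lemma AdmC.hodge_good (hA : AdmC p A) {M : ℕ} (hM : 0 < M) (hpM : p.Coprime M)
    (hdeg : GoodDegree2 M) {s : Multiset (ZMod M)} (hs : IsHodge M s) (hne : s ≠ 0) : A M s :=
  hA.hodge M hM hpM s hs hne
    ⟨fun he => main2_even hM he.two_dvd hdeg s hs hne,
      fun ho => main2_odd hM ho.not_two_dvd_nat hdeg s hs hne⟩

lemma AdmC.wit_hodge (hA : AdmC p A) {M : ℕ} [NeZero M] (hpM : p.Coprime M)
    (hdeg : GoodDegree2 M) {w : Multiset (ZMod M)} (hw : IsHodge M w) (hne : w ≠ 0) :
    Wit p A M w :=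
  ⟨isTate_of_hodge hpM hw, hA.hodge_good (NeZero.pos M) hpM hdeg hw.neg
    (by simpa using hne)⟩

end Pool.Agent.Q59.EC
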