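import Pool.Agent.Q59.EC.Pair

/-!
# Evenness from a product of two functions
-/

namespace Pool.Agent.Q59.EC

open Finset Pool.Agent.H916R2 Pool.Agent.H916Q
open Pool.Agent.H916T (IsTate SurfaceTate Standard W)
open Pool.Agent.H916Z (Link ZBase Rel0)
open Pool.Agent.H916Y (Gen even_count)

/-- **Evenness for two primes, from a product.** -/
theorem even_both {n : ℕ} [NeZero n] {p q j : ℕ} [hqf : Fact q.Prime] [hjf : Fact j.Prime]
    (hqj : q ≠ j) (hq2 : q ≠ 2) (hj2 : j ≠ 2) (hqn : q ∣ n) (hjn : j ∣ n)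
    (hpr : ∀ r, r.Prime → r ∣ n → r = q ∨ r = j)
    (hp : p.Coprime n) {s : Multiset (ZMod n)} (hs : Rel0 p s) (g : ZMod q → ℤ) (h : ZMod j → ℤ)
    (hg : ∀ x : ZMod q, x ≠ 0 → g (-x) = - g x) (hh : ∀ x : ZMod j, x ≠ 0 → h (-x) = h x)
    (hsum : ∀ x : (ZMod j)ˣ, ∑ y : (ZMod j)ˣ, h ((y : ZMod j) * (x : ZMod j)) = 0)
    (hgp : ∀ x : ZMod q, x ≠ 0 → g ((p : ZMod q) * x) = - g x)
    (hhp : ∀ x : ZMod j, x ≠ 0 → h ((p : ZMod j) * x) = - h x)
    (hgo : ∀ x : ZMod q, x ≠ 0 → ¬ 2 ∣ g x) (hho : ∀ x : ZMod j, x ≠ 0 → ¬ 2 ∣ h x) :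
    Even (s.countP (Supp {q, j})) := by
  classical
  have hq := hqf.out
  have hj := hjf.out
  have hn0 : n ≠ 0 := NeZero.ne n
  have hqpf : q ∈ n.primeFactors := Nat.mem_primeFactors.mpr ⟨hq, hqn, hn0⟩
  have hjpf : j ∈ n.primeFactors := Nat.mem_primeFactors.mpr ⟨hj, hjn, hn0⟩
  set Q : PF n := ⟨q, hqpf⟩ with hQ
  set J : PF n := ⟨j, hjpf⟩ with hJ
  have hQJ : Q ≠ J := fun h => hqj (congrArg Subtype.val h)
  have huniv : ∀ i : PF n, i = Q ∨ i = J := by
    intro i
    rcases hpr i Fact.out (Nat.dvd_of_mem_primeFactors i.2) with h | h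
    · exact Or.inl (Subtype.ext h)
    · exact Or.inr (Subtype.ext h)
  have hnd : ∀ r : ℕ, r.Prime → r ∣ n → ¬ r ∣ p := fun r hr hrn h => by
    have h1 := Nat.dvd_gcd h hrn
    rw [hp.gcd_eq_one] at h1
    exact hr.one_lt.ne' (Nat.dvd_one.mp h1)
  set ω : (∀ i, GG n i) → ℤ := fun x =>
    g ((x Q : GG n Q) : ZMod q) * h ((x J : GG n J) : ZMod j) with hω
  have hG : Gen n {Q, J} ∅ ω := by
    refine ⟨by simp, by simp, ⟨Q, by simp⟩, ?_, ?_, ?_, ?_, by simp, ?_⟩
    · intro k hk y x
      have h1 : Q ≠ k := fun h => hk (h ▸ (by simp))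
      have h2 : J ≠ k := fun h => hk (h ▸ (by simp))
      simp only [hω]
      rw [Pi.mul_apply, Pi.mul_apply, Pi.mulSingle_eq_of_ne h1, Pi.mulSingle_eq_of_ne h2, one_mul,
        one_mul]
    · intro x
      simp only [hω]
      have h1 : (((sg n * x) Q : GG n Q) : ZMod q) = -((x Q : GG n Q) : ZMod q) := by
        rw [Pi.mul_apply, Units.val_mul]; simp [sg]
      have h2 : (((sg n * x) J : GG n J) : ZMod j) = -((x J : GG n J) : ZMod j) := by
        rw [Pi.mul_apply, Units.val_mul]; simp [sg]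
      rw [h1, h2, hg _ (Units.ne_zero _), hh _ (Units.ne_zero _), neg_mul]
    · intro i hi x
      rcases mem_insert.mp hi with rfl | hi
      · unfold NN
        simp only [hω]
        have hc : ∀ y : GG n Q, (Pi.mulSingle Q y * x) J = x J := fun y => by
          rw [Pi.mul_apply, Pi.mulSingle_eq_of_ne hQJ.symm, one_mul]
        simp only [hc]
        rw [← sum_mul]
        have h1 := NN_odd (Q := Q) g hg x
        rw [h1, zero_mul]
      · rw [mem_singleton.mp hi]
        unfold NN
        simp only [hω]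
        have hc : ∀ y : GG n J, (Pi.mulSingle J y * x) Q = x Q := fun y => by
          rw [Pi.mul_apply, Pi.mulSingle_eq_of_ne hQJ, one_mul]
        simp only [hc]
        rw [← mul_sum]
        have h1 : ∑ y : GG n J, h (((Pi.mulSingle J y * x) J : GG n J) : ZMod j) = 0 := by
          rw [← hsum (x J)]
          refine sum_congr rfl fun y _ => ?_
          rw [Pi.mul_apply, Pi.mulSingle_eq_same, Units.val_mul]
        rw [h1, mul_zero]
    · intro i hi _ x
      exfalso
      rcases huniv i with rfl | rfl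
      · exact hi (by simp)
      · exact hi (by simp)
    · intro x hx
      rcases Int.prime_two.dvd_or_dvd hx with hx | hx
      · exact hgo _ (Units.ne_zero _) hx
      · exact hho _ (Units.ne_zero _) hx
  have h1 := even_count hp hs hG (fun i hi => by
      rcases mem_insert.mp hi with rfl | hi
      · exact hq2
      · rw [mem_singleton.mp hi]; exact hj2) (by
    intro x
    simp only [hω]
    have h1 : (((vec n p * x) Q : GG n Q) : ZMod q) =
        (p : ZMod q) * ((x Q : GG n Q) : ZMod q) := by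
      rw [Pi.mul_apply, Units.val_mul]
      congr 1
      exact vec_val (hnd q hq hqn)
    have h2 : (((vec n p * x) J : GG n J) : ZMod j) =
        (p : ZMod j) * ((x J : GG n J) : ZMod j) := by
      rw [Pi.mul_apply, Units.val_mul]
      congr 1
      exact vec_val (hnd j hj hjn)
    rw [h1, h2, hgp _ (Units.ne_zero _), hhp _ (Units.ne_zero _), neg_mul_neg])
  have hS : ({q, j} : Finset ℕ) ⊆ n.primeFactors := by
    intro r hr
    rcases mem_insert.mp hr with rfl | hr
    · exact hqpf
    · rw [mem_singleton.mp hr]; exact hjpf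
  have hFS : univ.filter (fun i : PF n => (i : ℕ) ∈ ({q, j} : Finset ℕ)) = {Q, J} := by
    ext i
    simp only [mem_filter, mem_univ, true_and, mem_insert, mem_singleton]
    constructor
    · rintro (h | h)
      · exact Or.inl (Subtype.ext h)
      · exact Or.inr (Subtype.ext h)
    · rintro (rfl | rfl)
      · exact Or.inl rfl
      · exact Or.inr rfl
  have h3 : s.countP (Supp {q, j}) = s.countP fun a => {Q, J} ⊆ H916Q.TT n (addOrderOf a) ∧
      H916Q.TT n (addOrderOf a) ⊆ {Q, J} ∪ ∅ := by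
    apply Multiset.countP_congr rfl
    intro a _
    rw [← TT_eq_iff hS, union_empty, hFS]
    simp only [eq_iff_iff]
    constructor
    · intro h
      rw [h]
      exact ⟨Subset.refl _, Subset.refl _⟩
    · rintro ⟨h, h'⟩
      exact Subset.antisymm h' h
  rw [h3]
  exact h1

end Pool.Agent.Q59.EC
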