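import Pool.Agent.Q59.EC.Tab2

/-!
# The families of degrees
-/

namespace Pool.Agent.Q59.EC

open Finset Pool.Agent.H916R2 Pool.Agent.H916Q Pool.Agent.Y2.Cv
open Pool.Agent.H916T (IsTate SurfaceTate Standard W)
open Pool.Agent.H916Z (Link ZBase Rel0 addOrderOf_dvd_level)
open Pool.Agent.H916Y (Dead countP_iota surface_iota Srf even_leg even_leg3 even_odd_level all235
  all237 allq7 all2311 all2313 t3 t311 v1 v2 prod3_13 jac_of_mod mod_coprime dead_of prod_sing
  dead_of_neg)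

variable {p : ℕ} {A : ∀ M : ℕ, Multiset (ZMod M) → Prop}

lemma AdmC.of_concl' (hA : AdmC p A) (hp : p.Prime) {m : ℕ} (hm : 0 < m) (hpm : p.Coprime m)
    {s : Multiset (ZMod m)} (h : s ≠ 0 → Pool.Agent.H916Y.Concl p m s) : A m s := by
  by_cases hs : s = 0
  · rw [hs]; exact hA.zero hp hm hpm
  · exact hA.of_concl hm hpm (h hs)

theorem AdmC.finish1 (hA : AdmC p A) {m k q : ℕ} (hp : p.Prime) (hm : 0 < m) (hk : 0 < k)
    (hpM : p.Coprime (k * m)) {s : Multiset (ZMod m)} (hs : IsTate p m s)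
    {G : List (Finset ℕ)} (hF : FixedC p A (k * m) (s.map (iota k : ZMod m → ZMod (k * m))) G)
    (hM : ∀ r, r.Prime → r ∣ k * m → r = 2 ∨ r = q) (h1 : Dead p {q} ∨ {q} ∈ G) : A m s :=
  hA.finish (q1 := q) (q2 := q) hp hm hk hpM hs hF
    (fun r hr h => (hM r hr h).imp id Or.inl) h1 h1 (by rw [pair_eq_singleton]; exact h1)

lemma dead_left {q1 q2 : ℕ} (h : Dead p {q1, q2}) : Dead p {q1} := by
  obtain ⟨j, hj⟩ := h
  refine ⟨j, ?_⟩
  rw [prod_singleton]
  exact (Finset.dvd_prod_of_mem (fun q : ℕ => q) (mem_insert_self q1 {q2})).trans hj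

lemma dead_right {q1 q2 : ℕ} (h : Dead p {q1, q2}) : Dead p {q2} := by
  rw [pair_comm] at h
  exact dead_left h

/-- **Degrees not divisible by four with one odd prime divisor.** -/
theorem AdmC.fam1 (hA : AdmC p A) {m q : ℕ} (hp : p.Prime) (hm : 0 < m) (hpm : p.Coprime m)
    (h4 : ¬ 4 ∣ m) (hq : q.Prime) (hpr : ∀ r, r.Prime → r ∣ m → r = 2 ∨ r = q)
    {s : Multiset (ZMod m)} (hs : IsTate p m s) : A m s := by
  have hz : NeZero m := ⟨hm.ne'⟩
  by_cases hq2 : q = 2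
  · subst hq2
    exact hA.of_concl' hp hm hpm (all235 hp hm hpm
      (fun r hr h => (hpr r hr h).elim Or.inl Or.inl) hs)
  have h := even_total (q1 := q) (q2 := 1) hm h4 hs hq.one_lt.ne' hq2 (by norm_num)
    (fun r hr h => (hpr r hr h).imp id Or.inl)
  have h0 : ∀ X : Finset ℕ, 1 ∈ X → s.countP (Supp X) = 0 := by
    intro X hX
    rw [Multiset.countP_eq_zero]
    intro a _ ha
    have h1 : 1 ∈ (addOrderOf a).primeFactors := by
      have ha' : (addOrderOf a).primeFactors = X := ha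
      rw [ha']; exact hX
    exact Nat.not_prime_one (Nat.prime_of_mem_primeFactors h1)
  rw [h0 {1} (by simp), h0 {q, 1} (by simp), add_zero, add_zero] at h
  have hz1 : NeZero (1 * m) := ⟨by omega⟩
  refine hA.finish1 (k := 1) (q := q) (G := [{q}]) hp hm one_pos (by rwa [one_mul]) hs
    (FixedC.start' s _ ?_) (by rw [one_mul]; exact hpr) (Or.inr (by simp))
  intro S hS
  rw [List.mem_singleton.mp hS]
  exact h

/-- **Two odd primes and one witness.** -/
theorem AdmC.two_primes (hA : AdmC p A) {m q1 q2 : ℕ} (hp : p.Prime) (hm : 0 < m)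
    (hpm : p.Coprime m) (h4 : ¬ 4 ∣ m) (h12 : q1 ≠ q2) (hq1 : q1 ≠ 2) (hq2 : q2 ≠ 2)
    (hpr : ∀ r, r.Prime → r ∣ m → r = 2 ∨ r = q1 ∨ r = q2)
    {s : Multiset (ZMod m)} (hs : IsTate p m s) {K : List (Finset ℕ)}
    (hw : WK p A (1 * m) K) (h1 : Odd (K.count {q1})) (h2 : Odd (K.count {q2}))
    (h3 : Even (K.count {q1, q2}))
    (hE : Dead p {q1, q2} ∨ Even (s.countP (Supp {q1, q2}))) : A m s := by
  have hz : NeZero m := ⟨hm.ne'⟩
  have hz1 : NeZero (1 * m) := ⟨by omega⟩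
  rcases hE with hD | hE
  · exact hA.finish (k := 1) (q1 := q1) (q2 := q2) (G := []) hp hm one_pos (by rwa [one_mul]) hs
      (FixedC.start' s _ (by simp)) (by rw [one_mul]; exact hpr) (Or.inl (dead_left hD))
      (Or.inl (dead_right hD)) (Or.inl hD)
  · have ht := even_total hm h4 hs h12 hq1 hq2 hpr
    have ht' : Even (s.countP (Supp {q1}) + s.countP (Supp {q2})) := by
      have h5 := (Nat.even_add.mp ht).mpr hE
      exact h5
    refine hA.finish (k := 1) (q1 := q1) (q2 := q2) (G := [{q1}, {q2}, {q1, q2}]) hp hm one_pos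
      (by rwa [one_mul]) hs ?_ (by rw [one_mul]; exact hpr) (Or.inr (by simp)) (Or.inr (by simp))
      (Or.inr (by simp))
    refine FixedC.two (G := [{q1, q2}]) ?_ hw {q1} {q2} ?_ h1 h2 ?_
    · intro S hS
      rw [List.mem_singleton.mp hS, countP_iota rfl]
      exact hE
    · rw [countP_iota rfl, countP_iota rfl]
      exact ht'
    · intro S hS
      rw [List.mem_singleton.mp hS]
      exact h3

lemma mod_cases (q : ℕ) (L : List ℕ) (hL : ∀ r < q, Nat.Coprime r q → r ∈ L) (hq : 0 < q)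
    (h : p.Coprime q) : p % q ∈ L := hL _ (Nat.mod_lt _ hq) (mod_coprime h)

lemma dead_mod {S : Finset ℕ} {j : ℕ} (n : ℕ) (hn : ∏ q ∈ S, q = n)
    (h : ((p % n) ^ j + 1) % n = 0) : Dead p S := by
  refine dead_of (j := j) hn ?_
  rw [Nat.add_mod, Nat.pow_mod] at h ⊢
  simpa using h

/-- **Degrees not divisible by four with prime divisors `2, 5, 7`.** -/
theorem AdmC.fam57 (hA : AdmC p A) {m : ℕ} (hp : p.Prime) (hm : 0 < m) (hpm : p.Coprime m)
    (h4 : ¬ 4 ∣ m) (hpr : ∀ r, r.Prime → r ∣ m → r = 2 ∨ r = 5 ∨ r = 7)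
    {s : Multiset (ZMod m)} (hs : IsTate p m s) : A m s := by
  have hz : NeZero m := ⟨hm.ne'⟩
  have hz1 : NeZero (1 * m) := ⟨by omega⟩
  by_cases h5 : 5 ∣ m
  swap
  · refine hA.of_concl' hp hm hpm (all237 hp hm hpm (fun r hr h => ?_) hs)
    rcases hpr r hr h with h' | h' | h'
    · exact Or.inl h'
    · exact absurd (h' ▸ h) h5
    · exact Or.inr (Or.inr h')
  by_cases h7 : 7 ∣ m
  swap
  · refine hA.of_concl' hp hm hpm (all235 hp hm hpm (fun r hr h => ?_) hs)
    rcases hpr r hr h with h' | h' | h'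
    · exact Or.inl h'
    · exact Or.inr (Or.inr h')
    · exact absurd (h' ▸ h) h7
  have h35 : 35 ∣ m := Nat.Coprime.mul_dvd_of_dvd_of_dvd (by norm_num : Nat.Coprime 5 7) h5 h7
  have hw : WK p A (1 * m) _ := hA.wk_hodge (k := m / 35) (L := 35) (by omega)
    (by rw [Nat.div_mul_cancel h35, one_mul]) (by rwa [one_mul])
    (by rw [one_mul]; exact Or.inr (Or.inr (Or.inl hpr))) w35
  refine hA.two_primes hp hm hpm h4 (by norm_num) (by norm_num) (by norm_num) hpr hs hw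
    (by decide) (by decide) (by decide) ?_
  have hp5 : p.Coprime 5 := Nat.Coprime.coprime_dvd_right h5 hpm
  have hp7 : p.Coprime 7 := Nat.Coprime.coprime_dvd_right h7 hpm
  have hp35 : p.Coprime 35 := Nat.Coprime.coprime_dvd_right h35 hpm
  have hrel : Rel0 p s := fun t => hs.W_sum hpm t
  have hodd : ((p % 7 = 1 ∨ p % 7 = 2 ∨ p % 7 = 4) ∨ p % 5 = 1 ∨ jacobiSym p 35 = 1) →
      Even (s.countP (Supp {5, 7})) := by
    intro hc
    refine even_odd_level hm h4 hpm hrel (by decide) ?_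
    intro n hn hn2 hnm hr x' hx'
    have hzn : NeZero n := ⟨hn.ne'⟩
    have hpn : p.Coprime n := Nat.Coprime.coprime_dvd_right hnm hpm
    have h5n := hr 5 (by norm_num) (by norm_num) h5
    have h7n := hr 7 (by norm_num) (by norm_num) h7
    have hprn : ∀ r, r.Prime → r ∣ n → r = 5 ∨ r = 7 := fun r hr' h =>
      (hpr r hr' (h.trans hnm)).resolve_left (fun h' => hn2 (h' ▸ h))
    rcases hc with hc | hc | hc
    · exact even57_a hn2 h5n h7n hprn hpn hx' hc
    · exact even57_b hn2 h5n h7n hprn hpn hx' hc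
    · exact even57_c h5n h7n hprn hpn hx' hc
  have hcas : ∀ r < 35, Nat.Coprime r 35 →
      (r % 7 = 1 ∨ r % 7 = 2 ∨ r % 7 = 4) ∨ r % 5 = 1 ∨ r ∈ [3, 12, 13, 17, 27, 33] ∨
        (r ^ 3 + 1) % 35 = 0 := by decide
  have h := hcas (p % 35) (Nat.mod_lt _ (by norm_num)) (mod_coprime hp35)
  rw [Nat.mod_mod_of_dvd p (by norm_num : 7 ∣ 35), Nat.mod_mod_of_dvd p (by norm_num : 5 ∣ 35)]
    at h
  rcases h with h | h | h | h
  · exact Or.inr (hodd (Or.inl h))
  · exact Or.inr (hodd (Or.inr (Or.inl h)))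
  · refine Or.inr (hodd (Or.inr (Or.inr ?_)))
    simp only [List.mem_cons, List.not_mem_nil, or_false] at h
    rcases h with h | h | h | h | h | h <;> (rw [jac_of_mod h]; norm_num)
  · exact Or.inl (dead_mod 35 (by decide) h)

/-- **Degrees not divisible by four with prime divisors `2, 3, 17`.** -/
theorem AdmC.fam317 (hA : AdmC p A) {m : ℕ} (hp : p.Prime) (hm : 0 < m) (hpm : p.Coprime m)
    (h4 : ¬ 4 ∣ m) (hpr : ∀ r, r.Prime → r ∣ m → r = 2 ∨ r = 3 ∨ r = 17)
    {s : Multiset (ZMod m)} (hs : IsTate p m s) : A m s := by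
  have hz : NeZero m := ⟨hm.ne'⟩
  have hz1 : NeZero (1 * m) := ⟨by omega⟩
  by_cases h3 : 3 ∣ m
  swap
  · refine hA.fam1 hp hm hpm h4 (q := 17) (by norm_num) (fun r hr h => ?_) hs
    rcases hpr r hr h with h' | h' | h'
    · exact Or.inl h'
    · exact absurd (h' ▸ h) h3
    · exact Or.inr h'
  by_cases h17 : 17 ∣ m
  swap
  · refine hA.of_concl' hp hm hpm (all235 hp hm hpm (fun r hr h => ?_) hs)
    rcases hpr r hr h with h' | h' | h'
    · exact Or.inl h'
    · exact Or.inr (Or.inl h')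
    · exact absurd (h' ▸ h) h17
  have h51 : 51 ∣ m := Nat.Coprime.mul_dvd_of_dvd_of_dvd (by norm_num : Nat.Coprime 3 17) h3 h17
  have hw : WK p A (1 * m) _ := hA.wk_hodge (k := m / 51) (L := 51) (by omega)
    (by rw [Nat.div_mul_cancel h51, one_mul]) (by rwa [one_mul])
    (by rw [one_mul]
        exact Or.inr (Or.inr (Or.inr (Or.inr (Or.inr (Or.inl ⟨h4, Or.inr (Or.inl hpr)⟩)))))) w51
  refine hA.two_primes hp hm hpm h4 (by norm_num) (by norm_num) (by norm_num) hpr hs hw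
    (by decide) (by decide) (by decide) ?_
  have hp51 : p.Coprime 51 := Nat.Coprime.coprime_dvd_right h51 hpm
  have hrel : Rel0 p s := fun t => hs.W_sum hpm t
  have hodd : (p % 3 = 1 ∨ p % 17 = 1 ∨ jacobiSym p 51 = 1 ∨
      (p % 3 = 2 ∧ (p % 17 = 2 ∨ p % 17 = 8 ∨ p % 17 = 9 ∨ p % 17 = 15)) ∨
      (p % 3 = 2 ∧ (p % 17 = 4 ∨ p % 17 = 13))) →
      Even (s.countP (Supp {3, 17})) := by
    intro hc
    refine even_odd_level hm h4 hpm hrel (by decide) ?_
    intro n hn hn2 hnm hr x' hx'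
    have hzn : NeZero n := ⟨hn.ne'⟩
    have hpn : p.Coprime n := Nat.Coprime.coprime_dvd_right hnm hpm
    have h3n := hr 3 (by norm_num) (by norm_num) h3
    have h17n := hr 17 (by norm_num) (by norm_num) h17
    have hprn : ∀ r, r.Prime → r ∣ n → r = 3 ∨ r = 17 := fun r hr' h =>
      (hpr r hr' (h.trans hnm)).resolve_left (fun h' => hn2 (h' ▸ h))
    rcases hc with hc | hc | hc | hc | hc
    · exact even317_a hn2 h3n h17n hprn hpn hx' hc
    · exact even317_b hn2 h3n h17n hprn hpn hx' hc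
    · exact even317_c h3n h17n hprn hpn hx' hc
    · exact even317_d h3n h17n hprn hpn hx' hc.1 hc.2
    · exact even317_e h3n h17n hprn hpn hx' hc.1 hc.2
  have hcas : ∀ r < 51, Nat.Coprime r 51 →
      r % 3 = 1 ∨ r % 17 = 1 ∨ (r % 3 = 2 ∧ r % 17 ∈ [3, 5, 6, 7, 10, 11, 12, 14]) ∨
      (r % 3 = 2 ∧ (r % 17 = 2 ∨ r % 17 = 8 ∨ r % 17 = 9 ∨ r % 17 = 15)) ∨
      (r % 3 = 2 ∧ (r % 17 = 4 ∨ r % 17 = 13)) ∨ (r ^ 1 + 1) % 51 = 0 := by
    intro r hr _
    interval_cases r <;> first | omega | (norm_num at *)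
  have hjac : ∀ r < 51, (r % 3 = 2 ∧ r % 17 ∈ [3, 5, 6, 7, 10, 11, 12, 14]) →
      r ∈ [20, 5, 23, 41, 44, 11, 29, 14] := by decide
  have h := hcas (p % 51) (Nat.mod_lt _ (by norm_num)) (mod_coprime hp51)
  have h' := hjac (p % 51) (Nat.mod_lt _ (by norm_num))
  rcases h with h | h | h | h | h | h
  · rw [Nat.mod_mod_of_dvd p (by norm_num : 3 ∣ 51)] at h
    exact Or.inr (hodd (Or.inl h))
  · rw [Nat.mod_mod_of_dvd p (by norm_num : 17 ∣ 51)] at h
    exact Or.inr (hodd (Or.inr (Or.inl h)))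
  · refine Or.inr (hodd (Or.inr (Or.inr (Or.inl ?_))))
    have h := h' h
    simp only [List.mem_cons, List.not_mem_nil, or_false] at h
    rcases h with h | h | h | h | h | h | h | h <;> (rw [jac_of_mod h]; norm_num)
  · rw [Nat.mod_mod_of_dvd p (by norm_num : 3 ∣ 51), Nat.mod_mod_of_dvd p (by norm_num : 17 ∣ 51)]
      at h
    exact Or.inr (hodd (Or.inr (Or.inr (Or.inr (Or.inl h)))))
  · rw [Nat.mod_mod_of_dvd p (by norm_num : 3 ∣ 51), Nat.mod_mod_of_dvd p (by norm_num : 17 ∣ 51)]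
      at h
    exact Or.inr (hodd (Or.inr (Or.inr (Or.inr (Or.inr h)))))
  · exact Or.inl (dead_mod 51 (by decide) h)

end Pool.Agent.Q59.EC
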