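import Pool.Agent.Q59.EC.Fam

/-!
# The families of degrees, continued
-/

namespace Pool.Agent.Q59.EC

open Finset Pool.Agent.H916R2 Pool.Agent.H916Q Pool.Agent.Y2.Cv
open Pool.Agent.H916T (IsTate SurfaceTate Standard W)
open Pool.Agent.H916Z (Link ZBase Rel0 addOrderOf_dvd_level)
open Pool.Agent.H916Y (Dead countP_iota surface_iota Srf even_leg even_leg3 even_odd_level all235
  all237 allq7 all2311 all2313 t3 t311 v1 v2 prod3_13 jac_of_mod mod_coprime dead_of prod_sing
  dead_of_neg exists_odd_level oddize_rel mem_pf)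

variable {p : ℕ} {A : ∀ M : ℕ, Multiset (ZMod M) → Prop}

lemma even_odd_level2 {m : ℕ} (hm : 0 < m) (hm4 : ¬ 4 ∣ m) (hpm : p.Coprime m)
    {x : Multiset (ZMod m)} (hx : Rel0 p x) {S T : Finset ℕ} (h2S : 2 ∉ S) (h2T : 2 ∉ T)
    (H : ∀ n, 0 < n → ¬ 2 ∣ n → n ∣ m → (∀ r, r.Prime → r ≠ 2 → r ∣ m → r ∣ n) →
      ∀ x' : Multiset (ZMod n), Rel0 p x' → Even (x'.countP (Supp S) + x'.countP (Supp T))) :
    Even (x.countP (Supp S) + x.countP (Supp T)) := by
  have hz : NeZero m := ⟨hm.ne'⟩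
  obtain ⟨k, n, hn, hk, hkn, hn2⟩ := exists_odd_level hm hm4
  obtain ⟨x', hx', hS⟩ := oddize_rel hn hk hkn hn2 hpm hx
  rw [Nat.even_add, ← hS S h2S, ← hS T h2T, ← Nat.even_add]
  refine H n hn hn2 (Dvd.intro_left k hkn) ?_ x' hx'
  intro r hr hr2 hrm
  rw [← hkn] at hrm
  rcases hr.dvd_mul.mp hrm with h | h
  · exfalso
    rcases hk with rfl | rfl
    · exact hr.one_lt.ne' (Nat.dvd_one.mp h)
    · exact hr2 ((Nat.prime_dvd_prime_iff_eq hr Nat.prime_two).mp h)
  · exact h

/-- **Degrees not divisible by four with prime divisors `2, 3, 19`.** -/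
theorem AdmC.fam319 (hA : AdmC p A) {m : ℕ} (hp : p.Prime) (hm : 0 < m) (hpm : p.Coprime m)
    (h4 : ¬ 4 ∣ m) (hpr : ∀ r, r.Prime → r ∣ m → r = 2 ∨ r = 3 ∨ r = 19)
    {s : Multiset (ZMod m)} (hs : IsTate p m s) : A m s := by
  have hz : NeZero m := ⟨hm.ne'⟩
  have hz1 : NeZero (1 * m) := ⟨by omega⟩
  by_cases h3 : 3 ∣ m
  swap
  · refine hA.fam1 hp hm hpm h4 (q := 19) (by norm_num) (fun r hr h => ?_) hs
    rcases hpr r hr h with h' | h' | h'
    · exact Or.inl h'
    · exact absurd (h' ▸ h) h3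
    · exact Or.inr h'
  by_cases h19 : 19 ∣ m
  swap
  · refine hA.of_concl' hp hm hpm (all235 hp hm hpm (fun r hr h => ?_) hs)
    rcases hpr r hr h with h' | h' | h'
    · exact Or.inl h'
    · exact Or.inr (Or.inl h')
    · exact absurd (h' ▸ h) h19
  have h57 : 57 ∣ m := Nat.Coprime.mul_dvd_of_dvd_of_dvd (by norm_num : Nat.Coprime 3 19) h3 h19
  have hw : WK p A (1 * m) _ := hA.wk_hodge (k := m / 57) (L := 57) (by omega)
    (by rw [Nat.div_mul_cancel h57, one_mul]) (by rwa [one_mul])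
    (by rw [one_mul]
        exact Or.inr (Or.inr (Or.inr (Or.inr (Or.inr (Or.inl ⟨h4, Or.inr (Or.inr hpr)⟩)))))) w57
  have hp57 : p.Coprime 57 := Nat.Coprime.coprime_dvd_right h57 hpm
  have hp3 : p.Coprime 3 := Nat.Coprime.coprime_dvd_right h3 hpm
  have hp19 : p.Coprime 19 := Nat.Coprime.coprime_dvd_right h19 hpm
  have hrel : Rel0 p s := fun t => hs.W_sum hpm t
  have hpr1 : ∀ r, r.Prime → r ∣ 1 * m → r = 2 ∨ r = 3 ∨ r = 19 := by rw [one_mul]; exact hpr
  have hp1 : p.Coprime (1 * m) := by rwa [one_mul]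
  have hc3 : ∀ r < 3, Nat.Coprime r 3 → r = 1 ∨ (r ^ 1 + 1) % 3 = 0 := by decide
  rcases hc3 (p % 3) (Nat.mod_lt _ (by norm_num)) (mod_coprime hp3) with h | h
  · -- one modulo three
    have hE : Even (s.countP (Supp {3})) := by
      refine even_odd_level hm h4 hpm hrel (by decide) ?_
      intro n hn hn2 hnm hr x' hx'
      have hzn : NeZero n := ⟨hn.ne'⟩
      have hpn : p.Coprime n := Nat.Coprime.coprime_dvd_right hnm hpm
      refine even_leg hpn hx' ?_ (by decide) ⟨3, by decide⟩ ?_ ?_ ?_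
      · intro r hr'
        rw [mem_singleton.mp hr']
        exact mem_pf hn (by norm_num) (hr 3 (by norm_num) (by norm_num) h3)
      · rw [prod_singleton]; norm_num
      · rw [prod_singleton, jac_of_mod h]; norm_num
      · intro j hj hjS
        rw [prod_singleton]
        simp only [mem_singleton] at hjS
        rcases hpr j (Nat.prime_of_mem_primeFactors hj)
          ((Nat.dvd_of_mem_primeFactors hj).trans hnm) with rfl | h | rfl
        · exact absurd (Nat.dvd_of_mem_primeFactors hj) hn2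
        · exact absurd h hjS
        · norm_num
    have ht := even_total (q1 := 3) (q2 := 19) hm h4 hs (by norm_num) (by norm_num) (by norm_num)
      hpr
    rw [add_assoc] at ht
    have ht' : Even (s.countP (Supp {19}) + s.countP (Supp {3, 19})) := (Nat.even_add.mp ht).mp hE
    refine hA.finish (k := 1) (q1 := 3) (q2 := 19) (G := [{19}, {3, 19}, {3}]) hp hm one_pos
      hp1 hs ?_ hpr1 (Or.inr (by simp)) (Or.inr (by simp)) (Or.inr (by simp))
    refine FixedC.two (G := [{3}]) ?_ hw {19} {3, 19} ?_ (by decide) (by decide) (by decide)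
    · intro S hS
      rw [List.mem_singleton.mp hS, countP_iota rfl]
      exact hE
    · rw [countP_iota rfl, countP_iota rfl]
      exact ht'
  · have hD3 : Dead p {3} := dead_mod 3 (by decide) h
    have hf : Fact (Nat.Prime 19) := ⟨by norm_num⟩
    rcases jacobiSym.eq_one_or_neg_one (a := p) (b := 19) (by
      rw [Int.gcd_natCast_natCast]; exact hp19) with hJ | hJ
    · have hE : Even (s.countP (Supp {19}) + s.countP (Supp {3, 19})) := by
        refine even_odd_level2 hm h4 hpm hrel (by decide) (by decide) ?_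
        intro n hn hn2 hnm hr x' hx'
        have hzn : NeZero n := ⟨hn.ne'⟩
        have hpn : p.Coprime n := Nat.Coprime.coprime_dvd_right hnm hpm
        refine even_leg3 (S := {19}) hpn hx' ?_ (by decide) ⟨19, by decide⟩
          (hr 3 (by norm_num) (by norm_num) h3) (by decide) ?_ ?_ ?_ ?_
        · intro r hr'
          rw [mem_singleton.mp hr']
          exact mem_pf hn (by norm_num) (hr 19 (by norm_num) (by norm_num) h19)
        · rw [prod_singleton]; norm_num
        · rw [prod_singleton]; exact hJ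
        · rw [prod_singleton]; norm_num
        · intro j hj hjS hj3
          simp only [mem_singleton] at hjS
          rcases hpr j (Nat.prime_of_mem_primeFactors hj)
            ((Nat.dvd_of_mem_primeFactors hj).trans hnm) with rfl | h | h
          · exact absurd (Nat.dvd_of_mem_primeFactors hj) hn2
          · exact absurd h hj3
          · exact absurd h hjS
      refine hA.finish (k := 1) (q1 := 3) (q2 := 19) (G := [{19}, {3, 19}]) hp hm one_pos
        hp1 hs ?_ hpr1 (Or.inl hD3) (Or.inr (by simp)) (Or.inr (by simp))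
      refine FixedC.two (G := []) (by simp) hw {19} {3, 19} ?_ (by decide) (by decide) (by simp)
      rw [countP_iota rfl, countP_iota rfl]
      exact hE
    · have hj : ∀ r < 57, Nat.Coprime r 57 → r % 3 = 2 → jacobiSym (r : ℤ) 19 = -1 →
          (r ^ 9 + 1) % 57 = 0 := by
        intro r hr hc h3 hJ
        have h9 : (r ^ 9 + 1) % 57 = 0 ∨ r % 19 ∈ [1, 4, 5, 6, 7, 9, 11, 16, 17] := by
          interval_cases r <;> first | omega | decide | (exact absurd h3 (by decide)) |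
            (exact absurd hc (by decide))
        rcases h9 with h9 | h9
        · exact h9
        · exfalso
          simp only [List.mem_cons, List.not_mem_nil, or_false] at h9
          rcases h9 with h | h | h | h | h | h | h | h | h <;>
            (rw [jac_of_mod h] at hJ; norm_num at hJ)
      have h57r : (p % 57) % 3 = 2 := by
        rw [Nat.mod_mod_of_dvd p (by norm_num : 3 ∣ 57)]
        have := Nat.mod_lt p (by norm_num : 0 < 3)
        interval_cases hh : p % 3 <;> simp_all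
      have hJ' : jacobiSym ((p % 57 : ℕ) : ℤ) 19 = -1 := by
        rw [← hJ]
        have h1 : (p % 57) % 19 = p % 19 := Nat.mod_mod_of_dvd p (by norm_num : 19 ∣ 57)
        rw [jac_of_mod h1, jac_of_mod (rfl : p % 19 = p % 19)]
      have hD : Dead p {3, 19} := dead_mod 57 (by decide)
        (hj (p % 57) (Nat.mod_lt _ (by norm_num)) (mod_coprime hp57) h57r hJ')
      exact hA.finish (k := 1) (q1 := 3) (q2 := 19) (G := []) hp hm one_pos hp1 hs
        (FixedC.start' s _ (by simp)) hpr1 (Or.inl hD3) (Or.inl (dead_right hD)) (Or.inl hD)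

/-- **Degrees divisible by four with prime divisors `2, 3, 11`.** -/
theorem AdmC.fam311 (hA : AdmC p A) {m : ℕ} (hp : p.Prime) (hm : 0 < m) (hpm : p.Coprime m)
    (h4 : 4 ∣ m) (hpr : ∀ r, r.Prime → r ∣ m → r = 2 ∨ r = 3 ∨ r = 11)
    {s : Multiset (ZMod m)} (hs : IsTate p m s) : A m s := by
  have hz : NeZero m := ⟨hm.ne'⟩
  have hz1 : NeZero (1 * m) := ⟨by omega⟩
  have hp1 : p.Coprime (1 * m) := by rwa [one_mul]
  have hpr1 : ∀ r, r.Prime → r ∣ 1 * m → r = 2 ∨ r = 3 ∨ r = 11 := by rw [one_mul]; exact hpr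
  by_cases h11 : 11 ∣ m
  swap
  · refine hA.of_concl' hp hm hpm (all235 hp hm hpm (fun r hr h => ?_) hs)
    rcases hpr r hr h with h' | h' | h'
    · exact Or.inl h'
    · exact Or.inr (Or.inl h')
    · exact absurd (h' ▸ h) h11
  have h44 : 44 ∣ m := Nat.Coprime.mul_dvd_of_dvd_of_dvd (by norm_num : Nat.Coprime 4 11) h4 h11
  have hw : WK p A (1 * m) _ := hA.wk_hodge (k := m / 44) (L := 44) (by omega)
    (by rw [Nat.div_mul_cancel h44, one_mul]) hp1
    (by rw [one_mul]; exact Or.inr (Or.inr (Or.inr (Or.inl hpr)))) w44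
  have F0 : FixedC p A (1 * m) (s.map (iota 1 : ZMod m → ZMod (1 * m))) [{11}] :=
    (FixedC.start' s [] (by simp)).wk hw {11} (by decide) (by simp)
  by_cases h3 : 3 ∣ m
  swap
  · refine hA.finish1 (k := 1) (q := 11) hp hm one_pos hp1 hs F0 ?_ (Or.inr (by simp))
    rw [one_mul]
    intro r hr h
    rcases hpr r hr h with h' | h' | h'
    · exact Or.inl h'
    · exact absurd (h' ▸ h) h3
    · exact Or.inr h'
  have h132 : 132 ∣ m := Nat.Coprime.mul_dvd_of_dvd_of_dvd (by norm_num : Nat.Coprime 44 3) h44 h3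
  have h66 : 66 ∣ m := Dvd.dvd.trans (by norm_num) h132
  have h12 : 12 ∣ m := Dvd.dvd.trans (by norm_num) h132
  have hw1 : WK p A (1 * m) _ := hA.wk_surf (k := m / 66) (L := 66) (by omega)
    (by rw [Nat.div_mul_cancel h66, one_mul]) hp1
    (t311 (Nat.Coprime.coprime_dvd_right h66 hpm))
  have hw2 : WK p A (1 * m) _ := hA.wk_surf (k := m / 12) (L := 12) (by omega)
    (by rw [Nat.div_mul_cancel h12, one_mul]) hp1
    (t3 (Nat.Coprime.coprime_dvd_right h12 hpm))
  have F1 := F0.wk hw1 {3, 11} (by decide) (by decide)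
  have F2 := F1.wk hw2 {3} (by decide) (by decide)
  exact hA.finish (k := 1) (q1 := 3) (q2 := 11) hp hm one_pos hp1 hs F2 hpr1 (Or.inr (by simp))
    (Or.inr (by simp)) (Or.inr (by simp))

/-- **Degrees divisible by four with prime divisors `2, 3, 13`.** -/
theorem AdmC.fam313 (hA : AdmC p A) {m : ℕ} (hp : p.Prime) (hm : 0 < m) (hpm : p.Coprime m)
    (h4 : 4 ∣ m) (hpr : ∀ r, r.Prime → r ∣ m → r = 2 ∨ r = 3 ∨ r = 13)
    {s : Multiset (ZMod m)} (hs : IsTate p m s) : A m s := by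
  have hz : NeZero m := ⟨hm.ne'⟩
  have hz1 : NeZero (1 * m) := ⟨by omega⟩
  have hp1 : p.Coprime (1 * m) := by rwa [one_mul]
  have hpr1 : ∀ r, r.Prime → r ∣ 1 * m → r = 2 ∨ r = 3 ∨ r = 13 := by rw [one_mul]; exact hpr
  by_cases h13 : 13 ∣ m
  swap
  · refine hA.of_concl' hp hm hpm (all235 hp hm hpm (fun r hr h => ?_) hs)
    rcases hpr r hr h with h' | h' | h'
    · exact Or.inl h'
    · exact Or.inr (Or.inl h')
    · exact absurd (h' ▸ h) h13
  have h52 : 52 ∣ m := Nat.Coprime.mul_dvd_of_dvd_of_dvd (by norm_num : Nat.Coprime 4 13) h4 h13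
  have hw : WK p A (1 * m) _ := hA.wk_hodge (k := m / 52) (L := 52) (by omega)
    (by rw [Nat.div_mul_cancel h52, one_mul]) hp1
    (by rw [one_mul]; exact Or.inr (Or.inr (Or.inr (Or.inr (Or.inl hpr))))) w52
  by_cases h3 : 3 ∣ m
  swap
  · have F0 : FixedC p A (1 * m) (s.map (iota 1 : ZMod m → ZMod (1 * m))) [{13}] :=
      (FixedC.start' s [] (by simp)).wk hw {13} (by decide) (by simp)
    refine hA.finish1 (k := 1) (q := 13) hp hm one_pos hp1 hs F0 ?_ (Or.inr (by simp))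
    rw [one_mul]
    intro r hr h
    rcases hpr r hr h with h' | h' | h'
    · exact Or.inl h'
    · exact absurd (h' ▸ h) h3
    · exact Or.inr h'
  have h156 : 156 ∣ m := Nat.Coprime.mul_dvd_of_dvd_of_dvd (by norm_num : Nat.Coprime 52 3) h52 h3
  have h39 : 39 ∣ m := Dvd.dvd.trans (by norm_num) h156
  have h12 : 12 ∣ m := Dvd.dvd.trans (by norm_num) h156
  have hp39 : p.Coprime 39 := Nat.Coprime.coprime_dvd_right h39 hpm
  have hw2 : WK p A (1 * m) _ := hA.wk_surf (k := m / 12) (L := 12) (by omega)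
    (by rw [Nat.div_mul_cancel h12, one_mul]) hp1
    (t3 (Nat.Coprime.coprime_dvd_right h12 hpm))
  have hrel : Rel0 p s := fun t => hs.W_sum hpm t
  have hE39 : jacobiSym p 39 = 1 → Even (s.countP (Supp {3, 13})) := by
    intro hJ
    refine even_leg hpm hrel ?_ (by decide) ⟨3, by decide⟩ ?_ ?_ ?_
    · intro r hr'
      simp only [mem_insert, mem_singleton] at hr'
      rcases hr' with rfl | rfl
      · exact mem_pf hm (by norm_num) h3
      · exact mem_pf hm (by norm_num) h13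
    · rw [prod3_13]; norm_num
    · rw [prod3_13]; exact hJ
    · intro j hj hjS
      rw [prod3_13]
      simp only [mem_insert, mem_singleton, not_or] at hjS
      rcases hpr j (Nat.prime_of_mem_primeFactors hj)
        (Nat.dvd_of_mem_primeFactors hj) with rfl | h | h
      · norm_num
      · exact absurd h hjS.1
      · exact absurd h hjS.2
  -- the conclusion from the support `{3, 13}`
  have fin : ∀ G : List (Finset ℕ),
      FixedC p A (1 * m) (s.map (iota 1 : ZMod m → ZMod (1 * m))) G →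
      (G = [] ∨ G = [{3, 13}]) → (Dead p {3, 13} ∨ {3, 13} ∈ G) → A m s := by
    intro G F hG h2
    have F1 := F.wk hw2 {3} (by decide) (by rcases hG with rfl | rfl <;> decide)
    have F2 := F1.wk hw {13} (by decide) (by rcases hG with rfl | rfl <;> decide)
    exact hA.finish (k := 1) (q1 := 3) (q2 := 13) hp hm one_pos hp1 hs F2 hpr1
      (Or.inr (by simp)) (Or.inr (by simp))
      (h2.imp id (fun h => List.mem_cons_of_mem _ (List.mem_cons_of_mem _ h)))
  have hcas : ∀ r < 39, Nat.Coprime r 39 →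
      r ∈ [1, 16, 22, 4, 10, 25, 2, 5, 8, 11, 20, 32] ∨
      r ∈ [7, 19, 28, 31, 34, 37] ∨ r ∈ [14, 29, 35] ∨ r ∈ [17, 23, 38] := by
    intro r hr
    interval_cases r <;> decide
  rcases hcas (p % 39) (Nat.mod_lt _ (by norm_num)) (mod_coprime hp39) with h | h | h | h
  · refine fin [{3, 13}] (FixedC.start' s _ ?_) (Or.inr rfl) (Or.inr (by simp))
    intro S hS
    rw [List.mem_singleton.mp hS]
    apply hE39
    simp only [List.mem_cons, List.not_mem_nil, or_false] at h
    rcases h with h | h | h | h | h | h | h | h | h | h | h | h <;>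
      (rw [jac_of_mod h]; norm_num)
  · have hv : WK p A (1 * m) _ := hA.wk_surf (k := m / 39) (L := 39) (by omega)
      (by rw [Nat.div_mul_cancel h39, one_mul]) hp1 (v1 hp39 h)
    exact fin _ ((FixedC.start' s [] (by simp)).wk hv {3, 13} (by decide) (by simp)) (Or.inr rfl)
      (Or.inr (by simp))
  · have hv : WK p A (1 * m) _ := hA.wk_surf (k := m / 39) (L := 39) (by omega)
      (by rw [Nat.div_mul_cancel h39, one_mul]) hp1 (v2 hp39 h)
    exact fin _ ((FixedC.start' s [] (by simp)).wk hv {3, 13} (by decide) (by simp)) (Or.inr rfl)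
      (Or.inr (by simp))
  · have hD2 : Dead p {3, 13} := by
      have hc : ∀ r ∈ [17, 23, 38], (r ^ 3 + 1) % 39 = 0 := by decide
      exact dead_mod 39 prod3_13 (hc _ h)
    exact fin [] (FixedC.start' s [] (by simp)) (Or.inl rfl) (Or.inl hD2)

/-- **The degrees.** -/
def GoodDegreeP (m : ℕ) : Prop :=
  (∀ q : ℕ, q.Prime → q ∣ m → q = 2 ∨ q = 3 ∨ q = 5) ∨
  (∀ q : ℕ, q.Prime → q ∣ m → q = 2 ∨ q = 3 ∨ q = 7) ∨
  (∀ q : ℕ, q.Prime → q ∣ m → q = 2 ∨ q = 3 ∨ q = 11) ∨
  (∀ q : ℕ, q.Prime → q ∣ m → q = 2 ∨ q = 3 ∨ q = 13) ∨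
  (∃ r : ℕ, r.Prime ∧ r % 8 = 7 ∧ ∀ q : ℕ, q.Prime → q ∣ m → q = 2 ∨ q = r) ∨
  (¬ 4 ∣ m ∧ ((∀ q : ℕ, q.Prime → q ∣ m → q = 2 ∨ q = 5 ∨ q = 7) ∨
    (∀ q : ℕ, q.Prime → q ∣ m → q = 2 ∨ q = 3 ∨ q = 17) ∨
    (∀ q : ℕ, q.Prime → q ∣ m → q = 2 ∨ q = 3 ∨ q = 19) ∨
    (∃ r : ℕ, r.Prime ∧ ∀ q : ℕ, q.Prime → q ∣ m → q = 2 ∨ q = r)))

/-- **Every Tate character of a good degree is in the family, in every characteristic.** -/
theorem AdmC.all (hA : AdmC p A) {m : ℕ} (hp : p.Prime) (hm : 0 < m) (hpm : p.Coprime m)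
    (hdeg : GoodDegreeP m) {s : Multiset (ZMod m)} (hs : IsTate p m s) : A m s := by
  rcases hdeg with h | h | h | h | ⟨r, hr, hr7, h⟩ | ⟨h4, h | h | h | ⟨r, hr, h⟩⟩
  · exact hA.of_concl' hp hm hpm (all235 hp hm hpm h hs)
  · exact hA.of_concl' hp hm hpm (all237 hp hm hpm h hs)
  · by_cases h4 : 4 ∣ m
    · exact hA.fam311 hp hm hpm h4 h hs
    · exact hA.of_concl' hp hm hpm (all2311 hp hm h4 hpm h hs)
  · by_cases h4 : 4 ∣ m
    · exact hA.fam313 hp hm hpm h4 h hs
    · exact hA.of_concl' hp hm hpm (all2313 hp hm h4 hpm h hs)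
  · exact hA.of_concl' hp hm hpm (allq7 hp hm hpm hr hr7 h hs)
  · exact hA.fam57 hp hm hpm h4 h hs
  · exact hA.fam317 hp hm hpm h4 h hs
  · exact hA.fam319 hp hm hpm h4 h hs
  · exact hA.fam1 hp hm hpm h4 hr h hs

lemma sub_of_dvd {m a b c k : ℕ} (ha : a.Prime) (hb : b.Prime) (hc : c.Prime)
    (h : m ∣ (a * b * c) ^ k) : ∀ q : ℕ, q.Prime → q ∣ m → q = a ∨ q = b ∨ q = c := by
  intro q hq hqm
  have h1 := hq.dvd_of_dvd_pow (hqm.trans h)
  rcases hq.dvd_mul.mp h1 with h2 | h2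
  · rcases hq.dvd_mul.mp h2 with h3 | h3
    · exact Or.inl ((Nat.prime_dvd_prime_iff_eq hq ha).mp h3)
    · exact Or.inr (Or.inl ((Nat.prime_dvd_prime_iff_eq hq hb).mp h3))
  · exact Or.inr (Or.inr ((Nat.prime_dvd_prime_iff_eq hq hc).mp h2))

lemma sub_of_dvd2 {m a b k : ℕ} (ha : a.Prime) (hb : b.Prime)
    (h : m ∣ (a * b) ^ k) : ∀ q : ℕ, q.Prime → q ∣ m → q = a ∨ q = b := by
  intro q hq hqm
  have h1 := hq.dvd_of_dvd_pow (hqm.trans h)
  rcases hq.dvd_mul.mp h1 with h3 | h3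
  · exact Or.inl ((Nat.prime_dvd_prime_iff_eq hq ha).mp h3)
  · exact Or.inr ((Nat.prime_dvd_prime_iff_eq hq hb).mp h3)

/-- all degrees up to fifty-four are good -/
theorem goodDegreeP_le {m : ℕ} (hm : 0 < m) (h54 : m ≤ 54) : GoodDegreeP m := by
  have p2 := Nat.prime_two
  have p3 := Nat.prime_three
  have p5 : Nat.Prime 5 := by norm_num
  have p7 : Nat.Prime 7 := by norm_num
  have p11 : Nat.Prime 11 := by norm_num
  have p13 : Nat.Prime 13 := by norm_num
  have p17 : Nat.Prime 17 := by norm_num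
  have p19 : Nat.Prime 19 := by norm_num
  have p23 : Nat.Prime 23 := by norm_num
  have p29 : Nat.Prime 29 := by norm_num
  have p31 : Nat.Prime 31 := by norm_num
  have p37 : Nat.Prime 37 := by norm_num
  have p41 : Nat.Prime 41 := by norm_num
  have p43 : Nat.Prime 43 := by norm_num
  have p47 : Nat.Prime 47 := by norm_num
  have p53 : Nat.Prime 53 := by norm_num
  unfold GoodDegreeP
  interval_cases m <;> first
    | (refine Or.inl (sub_of_dvd (k := 5) p2 p3 p5 ?_); norm_num; done)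
    | (refine Or.inr (Or.inl (sub_of_dvd (k := 5) p2 p3 p7 ?_)); norm_num; done)
    | (refine Or.inr (Or.inr (Or.inl (sub_of_dvd (k := 5) p2 p3 p11 ?_))); norm_num; done)
    | (refine Or.inr (Or.inr (Or.inr (Or.inl (sub_of_dvd (k := 5) p2 p3 p13 ?_)))); norm_num; done)
    | (refine Or.inr (Or.inr (Or.inr (Or.inr (Or.inl
        ⟨23, p23, rfl, sub_of_dvd2 (k := 5) p2 p23 ?_⟩)))); norm_num; done)
    | (refine Or.inr (Or.inr (Or.inr (Or.inr (Or.inl
        ⟨31, p31, rfl, sub_of_dvd2 (k := 5) p2 p31 ?_⟩)))); norm_num; done)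
    | (refine Or.inr (Or.inr (Or.inr (Or.inr (Or.inl
        ⟨47, p47, rfl, sub_of_dvd2 (k := 5) p2 p47 ?_⟩)))); norm_num; done)
    | (refine Or.inr (Or.inr (Or.inr (Or.inr (Or.inr ⟨?_, Or.inl
        (sub_of_dvd (k := 5) p2 p5 p7 ?_)⟩)))) <;> norm_num <;> done)
    | (refine Or.inr (Or.inr (Or.inr (Or.inr (Or.inr ⟨?_, Or.inr (Or.inl
        (sub_of_dvd (k := 5) p2 p3 p17 ?_))⟩)))) <;> norm_num <;> done)
    | (refine Or.inr (Or.inr (Or.inr (Or.inr (Or.inr ⟨?_, Or.inr (Or.inr (Or.inl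
        (sub_of_dvd (k := 5) p2 p3 p19 ?_)))⟩)))) <;> norm_num <;> done)
    | (refine Or.inr (Or.inr (Or.inr (Or.inr (Or.inr ⟨?_, Or.inr (Or.inr (Or.inr
        ⟨29, p29, sub_of_dvd2 (k := 5) p2 p29 ?_⟩))⟩)))) <;> norm_num <;> done)
    | (refine Or.inr (Or.inr (Or.inr (Or.inr (Or.inr ⟨?_, Or.inr (Or.inr (Or.inr
        ⟨37, p37, sub_of_dvd2 (k := 5) p2 p37 ?_⟩))⟩)))) <;> norm_num <;> done)
    | (refine Or.inr (Or.inr (Or.inr (Or.inr (Or.inr ⟨?_, Or.inr (Or.inr (Or.inr
        ⟨41, p41, sub_of_dvd2 (k := 5) p2 p41 ?_⟩))⟩)))) <;> norm_num <;> done)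
    | (refine Or.inr (Or.inr (Or.inr (Or.inr (Or.inr ⟨?_, Or.inr (Or.inr (Or.inr
        ⟨43, p43, sub_of_dvd2 (k := 5) p2 p43 ?_⟩))⟩)))) <;> norm_num <;> done)
    | (refine Or.inr (Or.inr (Or.inr (Or.inr (Or.inr ⟨?_, Or.inr (Or.inr (Or.inr
        ⟨53, p53, sub_of_dvd2 (k := 5) p2 p53 ?_⟩))⟩)))) <;> norm_num <;> done)

end Pool.Agent.Q59.EC
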