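import Pool.Agent.Q59.EC.Parity

/-!
# Evenness of the number of entries whose order has two given prime divisors
-/

namespace Pool.Agent.Q59.EC

open Finset Pool.Agent.H916R2 Pool.Agent.H916Q
open Pool.Agent.H916T (IsTate SurfaceTate Standard W)
open Pool.Agent.H916Z (Link ZBase Rel0)
open Pool.Agent.H916Y (Psi_od' Psi_inv)

section

variable {n : ℕ} (Q J : PF n) (F G : ZMod (Q : ℕ) → ℤ)

open scoped Classical in
/-- the family of functions -/
noncomputable def fam2 (U : Finset (PF n)) (x : ∀ i, GG n i) : ℤ :=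
  if U = {Q} then F ((x Q : GG n Q) : ZMod (Q : ℕ))
  else if U = {Q, J} then G ((x Q : GG n Q) : ZMod (Q : ℕ)) else 0

variable {Q J F G}

lemma fam2_one (x : ∀ i, GG n i) : fam2 Q J F G {Q} x = F ((x Q : GG n Q) : ZMod (Q : ℕ)) := by
  unfold fam2; rw [if_pos rfl]

lemma fam2_two (hQJ : Q ≠ J) (x : ∀ i, GG n i) :
    fam2 Q J F G {Q, J} x = G ((x Q : GG n Q) : ZMod (Q : ℕ)) := by
  have h : ({Q, J} : Finset (PF n)) ≠ {Q} := by
    intro h
    have : J ∈ ({Q} : Finset (PF n)) := by rw [← h]; simp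
    exact hQJ (mem_singleton.mp this).symm
  unfold fam2; rw [if_neg h, if_pos rfl]

lemma fam2_else {U : Finset (PF n)} (h1 : U ≠ {Q}) (h2 : U ≠ {Q, J}) (x : ∀ i, GG n i) :
    fam2 Q J F G U x = 0 := by
  unfold fam2; rw [if_neg h1, if_neg h2]

lemma NN_odd (F : ZMod (Q : ℕ) → ℤ) (hF : ∀ x : ZMod (Q : ℕ), x ≠ 0 → F (-x) = - F x)
    (x : ∀ i, GG n i) :
    ∑ y : GG n Q, F (((Pi.mulSingle Q y * x) Q : GG n Q) : ZMod (Q : ℕ)) = 0 := by
  have h1 : ∑ y : GG n Q, F (((Pi.mulSingle Q y * x) Q : GG n Q) : ZMod (Q : ℕ)) =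
      ∑ y : GG n Q, - F (((Pi.mulSingle Q y * x) Q : GG n Q) : ZMod (Q : ℕ)) := by
    refine Fintype.sum_equiv (Equiv.neg _) _ _ fun y => ?_
    rw [Equiv.neg_apply, Pi.mul_apply, Pi.mul_apply, Pi.mulSingle_eq_same, Pi.mulSingle_eq_same,
      neg_mul, Units.val_neg, hF _ (Units.ne_zero _), neg_neg]
  rw [sum_neg_distrib] at h1
  linarith

lemma fam2_dist (hQJ : Q ≠ J) (huniv : ∀ i : PF n, i = Q ∨ i = J)
    (hF : ∀ x : ZMod (Q : ℕ), x ≠ 0 → F (-x) = - F x)
    (hG : ∀ x : ZMod (Q : ℕ), x ≠ 0 → G (-x) = - G x)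
    (hrel : ∀ x : ZMod (Q : ℕ), x ≠ 0 →
      (((J : ℕ) : ℤ) - 1) * G (((J : ℕ) : ZMod (Q : ℕ)) * x) =
        F (((J : ℕ) : ZMod (Q : ℕ)) * x) - F x) :
    Dist (sg n) (tt n) (fam2 Q J F G) where
  ind := by
    intro U k hk y x
    have hc : k ≠ Q → (Pi.mulSingle k y * x) Q = x Q := fun h => by
      rw [Pi.mul_apply, Pi.mulSingle_eq_of_ne h.symm, one_mul]
    by_cases h1 : U = {Q}
    · subst h1
      rw [fam2_one, fam2_one, hc fun h => hk (by rw [h]; simp)]
    · by_cases h2 : U = {Q, J}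
      · subst h2
        rw [fam2_two hQJ, fam2_two hQJ, hc fun h => hk (by rw [h]; simp)]
      · rw [fam2_else h1 h2, fam2_else h1 h2]
  odd := by
    intro U x
    have hc : (((sg n * x) Q : GG n Q) : ZMod (Q : ℕ)) = -((x Q : GG n Q) : ZMod (Q : ℕ)) := by
      rw [Pi.mul_apply, Units.val_mul]
      simp [sg]
    by_cases h1 : U = {Q}
    · subst h1
      rw [fam2_one, fam2_one, hc, hF _ (Units.ne_zero _)]
    · by_cases h2 : U = {Q, J}
      · subst h2
        rw [fam2_two hQJ, fam2_two hQJ, hc, hG _ (Units.ne_zero _)]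
      · rw [fam2_else h1 h2, fam2_else h1 h2, neg_zero]
  rel := by
    intro U i hi
    have hQ0 : (∅ : Finset (PF n)) ≠ {Q} := (singleton_ne_empty Q).symm
    have hQJ0 : (∅ : Finset (PF n)) ≠ {Q, J} := (insert_ne_empty Q {J}).symm
    have hJQ : ({J} : Finset (PF n)) ≠ {Q} := fun h => hQJ (singleton_injective h).symm
    have hJQJ : ({J} : Finset (PF n)) ≠ {Q, J} := fun h => by
      have : Q ∈ ({J} : Finset (PF n)) := by rw [h]; simp
      exact hQJ (mem_singleton.mp this)
    funext x
    by_cases h1 : U = {Q}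
    · subst h1
      rw [mem_singleton.mp hi]
      have e : ({Q} : Finset (PF n)).erase Q = ∅ := by simp
      rw [e]
      unfold NN DD
      rw [fam2_else hQ0 hQJ0, fam2_else hQ0 hQJ0, sub_zero]
      simp only [fam2_one]
      exact NN_odd F hF x
    · by_cases h2 : U = {Q, J}
      · subst h2
        rcases mem_insert.mp hi with rfl | hi
        · have e : ({i, J} : Finset (PF n)).erase i = {J} := by
            rw [erase_insert]; simpa using hQJ
          rw [e]
          unfold NN DD
          rw [fam2_else hJQ hJQJ, fam2_else hJQ hJQJ, sub_zero]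
          simp only [fam2_two hQJ]
          exact NN_odd G hG x
        · rw [mem_singleton.mp hi]
          have e : ({Q, J} : Finset (PF n)).erase J = {Q} := by
            ext k
            simp only [mem_erase, mem_insert, mem_singleton]
            constructor
            · rintro ⟨h, h' | h'⟩
              · exact h'
              · exact absurd h' h
            · rintro rfl
              exact ⟨hQJ, Or.inl rfl⟩
          rw [e]
          unfold NN DD
          simp only [fam2_two hQJ, fam2_one]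
          have hc : ∀ y : GG n J, (Pi.mulSingle J y * x) Q = x Q := fun y => by
            rw [Pi.mul_apply, Pi.mulSingle_eq_of_ne hQJ, one_mul]
          simp only [hc]
          rw [sum_const, card_univ, ZMod.card_units_eq_totient, Nat.totient_prime Fact.out,
            nsmul_eq_mul, Nat.cast_sub (Fact.out : (J : ℕ).Prime).one_lt.le, Nat.cast_one]
          have hJ0 : ¬ (Q : ℕ) ∣ (J : ℕ) := fun h => hQJ (Subtype.ext
            ((Nat.prime_dvd_prime_iff_eq Fact.out Fact.out).mp h))
          set z : GG n Q := (tt n J * x) Q with hz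
          have hxz : ((x Q : GG n Q) : ZMod (Q : ℕ)) = ((J : ℕ) : ZMod (Q : ℕ)) * (z : ZMod (Q : ℕ)) := by
            rw [hz, Pi.mul_apply, Units.val_mul, ← mul_assoc]
            unfold tt
            rw [Pi.inv_apply, ← vec_val hJ0, ← Units.val_mul, mul_inv_cancel, Units.val_one,
              one_mul]
          rw [hxz]
          exact hrel _ (Units.ne_zero _)
      · have h3 : ∀ y, fam2 Q J F G U y = 0 := fun y => fam2_else h1 h2 y
        have h4 : U.erase i ≠ {Q} := by
          intro h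
          have hU : U = insert i {Q} := by rw [← h, insert_erase hi]
          rcases huniv i with rfl | rfl
          · apply h1
            rw [hU]; simp
          · apply h2
            rw [hU, pair_comm]
        have h5 : U.erase i ≠ {Q, J} := by
          intro h
          have h6 : i ∈ U.erase i := by
            rw [h]
            rcases huniv i with rfl | rfl <;> simp
          exact absurd h6 (notMem_erase i U)
        unfold NN DD
        rw [fam2_else h4 h5, fam2_else h4 h5, sub_zero]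
        exact sum_eq_zero fun y _ => h3 _
  zero := by
    intro x
    exact fam2_else (singleton_ne_empty Q).symm (insert_ne_empty Q {J}).symm x

end

/-- **Evenness for two primes.** -/
theorem even_pair {n : ℕ} [NeZero n] (hn2 : ¬ 2 ∣ n) {p q j : ℕ} (hq : q.Prime) (hj : j.Prime)
    (hqj : q ≠ j) (hqn : q ∣ n) (hjn : j ∣ n) (hpr : ∀ r, r.Prime → r ∣ n → r = q ∨ r = j)
    (hp : p.Coprime n) {s : Multiset (ZMod n)} (hs : Rel0 p s) (F G : ZMod q → ℤ)
    (hF : ∀ x : ZMod q, x ≠ 0 → F (-x) = - F x) (hG : ∀ x : ZMod q, x ≠ 0 → G (-x) = - G x)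
    (hrel : ∀ x : ZMod q, x ≠ 0 →
      ((j : ℤ) - 1) * G ((j : ZMod q) * x) = F ((j : ZMod q) * x) - F x)
    (hFp : ∀ x : ZMod q, x ≠ 0 → F ((p : ZMod q) * x) = F x)
    (hGp : ∀ x : ZMod q, x ≠ 0 → G ((p : ZMod q) * x) = G x)
    (hFe : ∀ x : ZMod q, x ≠ 0 → 2 ∣ F x) (hGo : ∀ x : ZMod q, x ≠ 0 → ¬ 2 ∣ G x) :
    Even (s.countP (Supp {q, j})) := by
  classical
  have hqf : Fact q.Prime := ⟨hq⟩
  have hn0 : n ≠ 0 := NeZero.ne n
  have hqpf : q ∈ n.primeFactors := Nat.mem_primeFactors.mpr ⟨hq, hqn, hn0⟩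
  have hjpf : j ∈ n.primeFactors := Nat.mem_primeFactors.mpr ⟨hj, hjn, hn0⟩
  set Q : PF n := ⟨q, hqpf⟩ with hQ
  set J : PF n := ⟨j, hjpf⟩ with hJ
  have hQJ : Q ≠ J := fun h => hqj (congrArg Subtype.val h)
  have huniv : ∀ i : PF n, i = Q ∨ i = J := by
    intro i
    rcases hpr i Fact.out (Nat.dvd_of_mem_primeFactors i.2) with h | h
    · exact Or.inl (Subtype.ext h)
    · exact Or.inr (Subtype.ext h)
  have hφ : Dist (sg n) (tt n) (fam2 Q J F G) := fam2_dist hQJ huniv hF hG hrel
  have hpq : ¬ (Q : ℕ) ∣ p := fun h => by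
    have h1 := Nat.dvd_gcd h hqn
    rw [hp.gcd_eq_one] at h1
    exact hq.one_lt.ne' (Nat.dvd_one.mp h1)
  have hinv : ∀ U x, fam2 Q J F G U (vec n p * x) = fam2 Q J F G U x := by
    intro U x
    have hc : (((vec n p * x) Q : GG n Q) : ZMod q) =
        (p : ZMod q) * ((x Q : GG n Q) : ZMod q) := by
      rw [Pi.mul_apply, Units.val_mul]
      congr 1
      exact vec_val hpq
    by_cases h1 : U = {Q}
    · subst h1
      rw [fam2_one, fam2_one]
      have := hFp ((x Q : GG n Q) : ZMod q) (Units.ne_zero _)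
      rw [← hc] at this
      exact this
    · by_cases h2 : U = {Q, J}
      · subst h2
        rw [fam2_two hQJ, fam2_two hQJ]
        have := hGp ((x Q : GG n Q) : ZMod q) (Units.ne_zero _)
        rw [← hc] at this
        exact this
      · rw [fam2_else h1 h2, fam2_else h1 h2]
  obtain ⟨k, hk, hk0⟩ := H916D.torsion_sum hp (Psi_od' hφ) (Psi_inv hφ hp hinv) s hs
  have hsum : (s.map (Psi (fam2 Q J F G))).sum = 0 := by
    rw [nsmul_eq_mul] at hk0
    rcases mul_eq_zero.mp hk0 with h | h
    · exact absurd (by exact_mod_cast h) hk.ne'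
    · exact h
  have hS : ({q, j} : Finset ℕ) ⊆ n.primeFactors := by
    intro r hr
    rcases mem_insert.mp hr with rfl | hr
    · exact hqpf
    · rw [mem_singleton.mp hr]; exact hjpf
  have hFS : univ.filter (fun i : PF n => (i : ℕ) ∈ ({q, j} : Finset ℕ)) = {Q, J} := by
    ext i
    simp only [mem_filter, mem_univ, true_and, mem_insert, mem_singleton]
    constructor
    · rintro (h | h)
      · exact Or.inl (Subtype.ext h)
      · exact Or.inr (Subtype.ext h)
    · rintro (rfl | rfl)
      · exact Or.inl rfl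
      · exact Or.inr rfl
  refine countP_parity (Supp {q, j}) (Psi (fam2 Q J F G)) (fun a => ?_) s hsum
  rw [Psi_parity hn2 (S := {Q, J}) (fun x => ?_) (fun U hU x => ?_) a, ← TT_eq_iff hS, hFS]
  · rw [fam2_two hQJ]
    exact hGo _ (Units.ne_zero _)
  · by_cases h1 : U = {Q}
    · subst h1
      rw [fam2_one]
      exact hFe _ (Units.ne_zero _)
    · rw [fam2_else h1 hU]
      exact dvd_zero 2

end Pool.Agent.Q59.EC
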