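import Pool.Agent.Q59.EC.Base

/-!
# The parity criterion with witnesses
-/

namespace Pool.Agent.Q59.EC

open Finset Pool.Agent.H916R2 Pool.Agent.H916Q Pool.Agent.Y2.Cv
open Pool.Agent.H916T (IsTate SurfaceTate Standard W isTate_of_W)
open Pool.Agent.H916Z (Link ZBase Rel0 addOrderOf_dvd_level)
open Pool.Agent.H916Y (Dead dead_elem link_parity2 isTate_add isTate_zero isTate_iota
  surface_iota parity_main countP_iota)

variable {p : ℕ} {A : ∀ M : ℕ, Multiset (ZMod M) → Prop}

lemma isTate_wit {M : ℕ} [NeZero M] (hpM : p.Coprime M) (l : Multiset (Multiset (ZMod M)))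
    (hl : ∀ x ∈ l, Wit p A M x) : IsTate p M l.sum := by
  induction l using Multiset.induction_on with
  | empty => simpa using isTate_zero hpM
  | cons a l ih =>
    rw [Multiset.sum_cons]
    exact isTate_add hpM (hl a (Multiset.mem_cons_self _ _)).1
      (ih fun x hx => hl x (Multiset.mem_cons_of_mem hx))

lemma AdmC.remove (hA : AdmC p A) {M : ℕ} (hM : 0 < M) (hpM : p.Coprime M)
    (l : Multiset (Multiset (ZMod M))) (hl : ∀ x ∈ l, Wit p A M x) :
    ∀ s : Multiset (ZMod M), A M (s + l.sum) → A M s := by
  induction l using Multiset.induction_on with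
  | empty => intro s h; simpa using h
  | cons a l ih =>
    intro s h
    apply hA.cancel_multi hM hpM a s
    rw [← add_assoc]
    have ha := hl a (Multiset.mem_cons_self _ _)
    refine hA.join M hM hpM _ _ ?_ ha.2
    apply ih (fun x hx => hl x (Multiset.mem_cons_of_mem hx))
    rw [Multiset.sum_cons] at h
    rw [add_assoc]
    exact h

/-- Parities that have been made even by witnesses. -/
def FixedC (p : ℕ) (A : ∀ M : ℕ, Multiset (ZMod M) → Prop) (M : ℕ) (x : Multiset (ZMod M))
    (G : List (Finset ℕ)) : Prop :=
  ∃ l : Multiset (Multiset (ZMod M)), (∀ y ∈ l, Wit p A M y) ∧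
    ∀ S ∈ G, Even ((x + l.sum).countP (Supp S))

lemma FixedC.start {M : ℕ} (x : Multiset (ZMod M)) (G : List (Finset ℕ))
    (h : ∀ S ∈ G, Even (x.countP (Supp S))) : FixedC p A M x G :=
  ⟨0, by simp, by simpa using h⟩

lemma FixedC.step {M : ℕ} {x : Multiset (ZMod M)} {G : List (Finset ℕ)} (hF : FixedC p A M x G)
    {w : Multiset (ZMod M)} (hw : Wit p A M w) (S0 : Finset ℕ) (h1 : Odd (w.countP (Supp S0)))
    (h2 : ∀ S ∈ G, Even (w.countP (Supp S))) : FixedC p A M x (S0 :: G) := by
  obtain ⟨l0, hl0, hG⟩ := hF
  by_cases hev : Even ((x + l0.sum).countP (Supp S0))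
  · refine ⟨l0, hl0, fun S hS => ?_⟩
    rcases List.mem_cons.mp hS with rfl | hS
    · exact hev
    · exact hG S hS
  · refine ⟨w ::ₘ l0, ?_, ?_⟩
    · intro y hy
      rcases Multiset.mem_cons.mp hy with rfl | hy
      · exact hw
      · exact hl0 y hy
    · intro S hS
      have h3 : x + (w ::ₘ l0).sum = w + (x + l0.sum) := by
        rw [Multiset.sum_cons]; abel
      rw [h3, Multiset.countP_add]
      rcases List.mem_cons.mp hS with rfl | hS
      · rw [Nat.even_add]
        exact ⟨fun h' => absurd h' (Nat.not_even_iff_odd.mpr h1), fun h' => absurd h' hev⟩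
      · exact (h2 S hS).add (hG S hS)

open scoped Classical in
/-- **The parity criterion with witnesses.** -/
theorem AdmC.parity (hA : AdmC p A) {m k : ℕ} (hp : p.Prime) (hm : 0 < m) (hk : 0 < k)
    (hpM : p.Coprime (k * m)) {s : Multiset (ZMod m)} (hs : IsTate p m s)
    (l : Multiset (Multiset (ZMod (k * m)))) (hl : ∀ x ∈ l, Wit p A (k * m) x)
    (hpar : ∀ a : ZMod (k * m), Even ((s.map (iota k : ZMod m → ZMod (k * m)) + l.sum).countP
      (fun b => Relation.EqvGen (Link p) a b))) : A m s := by
  have hM : 0 < k * m := Nat.mul_pos hk hm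
  have hz : NeZero m := ⟨hm.ne'⟩
  have hzM : NeZero (k * m) := ⟨hM.ne'⟩
  have hpk : p.Coprime k := Nat.Coprime.coprime_dvd_right (Dvd.intro _ rfl) hpM
  have hpm : p.Coprime m := Nat.Coprime.coprime_dvd_right (Dvd.intro_left _ rfl) hpM
  by_cases hne : s = 0
  · rw [hne]; exact hA.zero hp hm hpm
  have h1 : IsTate p (k * m) (s.map (iota k : ZMod m → ZMod (k * m)) + l.sum) :=
    isTate_add hpM (isTate_iota rfl hpM hs) (isTate_wit hpM l hl)
  obtain ⟨N, hN, hpN, H⟩ := parity_main hp hM hpM h1 (by
    intro h
    have h2 := congrArg Multiset.card h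
    rw [Multiset.card_add, Multiset.card_map, Multiset.card_zero] at h2
    exact hne (Multiset.card_eq_zero.mp (by omega))) hpar
  have h2 : A (N * (k * m)) _ := hA.gen (Nat.mul_pos hN hM) (Nat.Coprime.mul_right hpN hpM)
    (H (N * (k * m)) rfl)
  have h3 := hA.descend (k * m) N hM hN hpM hpN _ h2
  exact hA.descend m k hm hk hpm hpk s (hA.remove hM hpM l hl _ h3)

/-- **Conclusion for degrees with at most two odd primes.** -/
theorem AdmC.finish (hA : AdmC p A) {m k q1 q2 : ℕ} (hp : p.Prime) (hm : 0 < m) (hk : 0 < k)
    (hpM : p.Coprime (k * m)) {s : Multiset (ZMod m)} (hs : IsTate p m s)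
    {G : List (Finset ℕ)} (hF : FixedC p A (k * m) (s.map (iota k : ZMod m → ZMod (k * m))) G)
    (hM : ∀ q, q.Prime → q ∣ k * m → q = 2 ∨ q = q1 ∨ q = q2)
    (h1 : Dead p {q1} ∨ {q1} ∈ G) (h2 : Dead p {q2} ∨ {q2} ∈ G)
    (h12 : Dead p {q1, q2} ∨ {q1, q2} ∈ G) : A m s := by
  classical
  have hM0 : 0 < k * m := Nat.mul_pos hk hm
  have hz : NeZero m := ⟨hm.ne'⟩
  have hzM : NeZero (k * m) := ⟨hM0.ne'⟩
  obtain ⟨l, hl, hG⟩ := hF
  refine hA.parity hp hm hk hpM hs l hl ?_
  have hT : IsTate p (k * m) (s.map (iota k : ZMod m → ZMod (k * m)) + l.sum) :=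
    isTate_add hpM (isTate_iota rfl hpM hs) (isTate_wit hpM l hl)
  intro a
  have key := link_parity2 (p := p) hT.1 hT.2.1 (fun S => S.Nonempty ∧ Dead p S)
    (fun S hS a ha => dead_elem S hS.1 hS.2 a ha) ?_ a
  · exact key
  · intro S hSne h2S hnD
    have hnD' : ¬ Dead p S := fun h => hnD ⟨hSne, h⟩
    by_cases hex : ∃ b ∈ (s.map (iota k : ZMod m → ZMod (k * m)) + l.sum), Supp S b
    · obtain ⟨b, _, hb⟩ := hex
      have hsub : ∀ q ∈ S, q = q1 ∨ q = q2 := by
        intro q hq
        have h3 : q ∈ (addOrderOf b).primeFactors := by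
          have hb' : (addOrderOf b).primeFactors = S := hb
          rw [hb']; exact hq
        have h4 := Nat.prime_of_mem_primeFactors h3
        have h5 := (Nat.dvd_of_mem_primeFactors h3).trans (addOrderOf_dvd_level b)
        rcases hM q h4 h5 with h6 | h6
        · rw [h6] at hq; exact absurd hq h2S
        · exact h6
      have hcases : S = {q1} ∨ S = {q2} ∨ S = {q1, q2} := by
        by_cases c1 : q1 ∈ S
        · by_cases c2 : q2 ∈ S
          · right; right
            ext q
            rw [mem_insert, mem_singleton]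
            constructor
            · exact hsub q
            · rintro (rfl | rfl)
              · exact c1
              · exact c2
          · left
            ext q
            rw [mem_singleton]
            constructor
            · intro hq
              rcases hsub q hq with h | h
              · exact h
              · rw [h] at hq; exact absurd hq c2
            · rintro rfl; exact c1
        · right; left
          have c2 : q2 ∈ S := by
            obtain ⟨q, hq⟩ := hSne
            rcases hsub q hq with h | h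
            · rw [h] at hq; exact absurd hq c1
            · rw [← h]; exact hq
          ext q
          rw [mem_singleton]
          constructor
          · intro hq
            rcases hsub q hq with h | h
            · rw [h] at hq; exact absurd hq c1
            · exact h
          · rintro rfl; exact c2
      rcases hcases with rfl | rfl | rfl
      · exact hG _ (h1.resolve_left hnD')
      · exact hG _ (h2.resolve_left hnD')
      · exact hG _ (h12.resolve_left hnD')
    · push Not at hex
      have h0 : (s.map (iota k : ZMod m → ZMod (k * m)) + l.sum).countP (Supp S) = 0 :=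
        Multiset.countP_eq_zero.mpr hex
      rw [h0]; exact Even.zero

/-- Tate characters to which a theorem of the form `Concl` applies -/
lemma AdmC.of_concl (hA : AdmC p A) {m : ℕ} (hm : 0 < m) (hpm : p.Coprime m)
    {s : Multiset (ZMod m)} (h : Pool.Agent.H916Y.Concl p m s) : A m s := by
  obtain ⟨N, hN, hpN, H⟩ := h
  exact hA.descend m N hm hN hpm hpN s
    (hA.gen (Nat.mul_pos hN hm) (Nat.Coprime.mul_right hpN hpm) (H (N * m) rfl))

/-- The entries of even order, and the entries of odd order, of a character are even in number. -/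
lemma even_odd_orders {m : ℕ} [NeZero m] (h4 : ¬ 4 ∣ m) {s : Multiset (ZMod m)}
    (hcard : Even (Multiset.card s)) (hsum : s.sum = 0) :
    Even (s.countP fun a => ¬ 2 ∣ addOrderOf a) := by
  classical
  by_cases h2 : 2 ∣ m
  swap
  · have h1 : (s.countP fun a => ¬ 2 ∣ addOrderOf a) = Multiset.card s := by
      rw [Multiset.countP_eq_card]
      intro a _ h
      exact h2 (h.trans (addOrderOf_dvd_level a))
    rw [h1]; exact hcard
  · obtain ⟨n, rfl⟩ := h2
    have hn2 : ¬ 2 ∣ n := fun h => h4 (by obtain ⟨c, rfl⟩ := h; exact ⟨c, by ring⟩)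
    have hord : ∀ a : ZMod (2 * n), 2 ∣ addOrderOf a ↔ Odd a.val := by
      intro a
      rw [Pool.Agent.H916Q.addOrderOf_eq]
      have hg : Nat.gcd a.val (2 * n) ∣ 2 * n := Nat.gcd_dvd_right _ _
      have hmul := Nat.div_mul_cancel hg
      have hn0 : n ≠ 0 := by rintro rfl; exact hn2 (dvd_zero 2)
      constructor
      · intro h
        rw [← Nat.not_even_iff_odd]
        intro he
        have h2g : 2 ∣ Nat.gcd a.val (2 * n) := Nat.dvd_gcd he.two_dvd (dvd_mul_right 2 n)
        obtain ⟨c, hc⟩ := h
        obtain ⟨d, hd⟩ := h2g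
        rw [hc, hd] at hmul
        apply hn2
        exact ⟨c * d, by
          have : 2 * (2 * (c * d)) = 2 * n := by rw [← hmul]; ring
          omega⟩
      · intro ho
        have h2g : ¬ 2 ∣ Nat.gcd a.val (2 * n) := by
          intro h
          have h3 := h.trans (Nat.gcd_dvd_left _ _)
          exact (Nat.not_even_iff_odd.mpr ho) (even_iff_two_dvd.mpr h3)
        have h3 : 2 ∣ (2 * n / Nat.gcd a.val (2 * n)) * Nat.gcd a.val (2 * n) := by
          rw [hmul]; exact dvd_mul_right 2 n
        exact (Nat.prime_two.dvd_mul.mp h3).resolve_right h2g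
    have hcast : (((s.map fun a => a.val).sum : ℕ) : ZMod (2 * n)) = s.sum := by
      clear hcard hsum
      induction s using Multiset.induction_on with
      | empty => simp
      | cons a s ih =>
        rw [Multiset.map_cons, Multiset.sum_cons, Multiset.sum_cons, Nat.cast_add,
          ZMod.natCast_zmod_val, ih]
    rw [hsum, ZMod.natCast_eq_zero_iff] at hcast
    have h2s : 2 ∣ (s.map fun a => a.val).sum := (dvd_mul_right 2 n).trans hcast
    have key : ∀ s : Multiset (ZMod (2 * n)),
        (s.map fun a => a.val).sum % 2 = (s.countP fun a => 2 ∣ addOrderOf a) % 2 := by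
      intro s
      induction s using Multiset.induction_on with
      | empty => simp
      | cons a s ih =>
        rw [Multiset.map_cons, Multiset.sum_cons, Multiset.countP_cons, Nat.add_mod, ih]
        by_cases h : 2 ∣ addOrderOf a
        · rw [if_pos h, Nat.odd_iff.mp ((hord a).mp h)]
          omega
        · rw [if_neg h, Nat.not_odd_iff.mp fun h' => h ((hord a).mpr h')]
          omega
    have h3 := Multiset.card_eq_countP_add_countP (fun a : ZMod (2 * n) => 2 ∣ addOrderOf a) s
    have h4 := key s
    rw [h3] at hcard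
    rw [Nat.even_iff] at hcard ⊢
    omega

end Pool.Agent.Q59.EC
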