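import Pool.Agent.Q59.RL.Sign

/-!
# The signs of the form of the standard conjecture of Hodge type on Fermat varieties: definitions

Let `p` be a prime. For `M` prime to `p` the primitive cohomology of the Fermat variety of degree `M` and
even dimension `n` over an algebraic closure `k` of the field with `p` elements is a sum of lines indexed
by multisets of `n + 2` nonzero residues modulo `M` of sum zero (characters). Fix an embedding of the
field of roots of unity in `ℂ`. Then the primitive algebraic classes with complex coefficients, modulo
numerical equivalence, are the sum of lines `ℂ z(s)`, one for every `s` in the family `A M` of the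
characters of algebraic classes, and the hermitian form `(x, y) ↦ (-1) ^ (n / 2) x · ȳ` is diagonal with
respect to these lines. Let `ε M s` be its sign on `ℂ z(s)`. The standard conjecture of Hodge type for
the Fermat varieties of degree `M` says that `ε M s = 1` for all `s` in `A M`.

The families `A M` have the properties of `Admissible` below (Shioda, Katsura, Aoki, Tate). The signs have
the properties of `Signs`: they are one for pairs (dimension zero), for surfaces (Hodge index theorem)
and for the standard characters (their classes lift to characteristic zero); they are multiplicative for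
unions (by the inductive structure of Shioda and Katsura the line of a union is the product of the
lines, and the form on it is a negative rational multiple of the product of the forms
`(x, y) ↦ x · ȳ`); they are invariant under complex conjugation and under pull-back from degree `M` to
degree `N M`.
-/

namespace Pool.Agent.Q59.EC.SignDefs

open Pool.Agent.H916T

/-- The closure properties of the families of the characters of algebraic classes. -/
structure Admissible (p : ℕ) (A : ∀ M : ℕ, Multiset (ZMod M) → Prop) : Prop where
  /-- members are Tate characters -/
  tate : ∀ M, 0 < M → p.Coprime M → ∀ s, A M s → IsTate p M s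
  /-- duality -/
  neg : ∀ M, 0 < M → p.Coprime M → ∀ s, A M s → A M (s.map fun a => -a)
  /-- pairs -/
  pair : ∀ M, 0 < M → p.Coprime M → ∀ a : ZMod M, a ≠ 0 → A M {a, -a}
  /-- surfaces -/
  surface : ∀ M, 0 < M → p.Coprime M → ∀ s, SurfaceTate p M s → A M s
  /-- standard characters -/
  standard : ∀ M, 0 < M → p.Coprime M → ∀ q : ℕ, q.Prime → q ∣ M → ∀ s, Standard q M s → A M s
  /-- closed under union -/
  join : ∀ M, 0 < M → p.Coprime M → ∀ s t, A M s → A M t → A M (s + t)
  /-- closed under removal of a pair -/
  cancel : ∀ M, 0 < M → p.Coprime M → ∀ a s, A M (a ::ₘ -a ::ₘ s) → A M s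
  /-- descent of the degree -/
  descend : ∀ M N, 0 < M → 0 < N → p.Coprime M → p.Coprime N → ∀ s : Multiset (ZMod M),
    A (N * M) (s.map fun a => ((N * a.val : ℕ) : ZMod (N * M))) → A M s

/-- The properties of the signs of the hermitian form on the lines of algebraic classes. -/
structure Signs (p : ℕ) (A : ∀ M : ℕ, Multiset (ZMod M) → Prop)
    (ε : ∀ M : ℕ, Multiset (ZMod M) → ℤˣ) : Prop where
  /-- complex conjugation -/
  neg : ∀ M, 0 < M → p.Coprime M → ∀ s, A M s → ε M (s.map fun a => -a) = ε M s
  /-- pairs -/
  pair : ∀ M, 0 < M → p.Coprime M → ∀ a : ZMod M, a ≠ 0 → ε M {a, -a} = 1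
  /-- surfaces (Hodge index theorem) -/
  surface : ∀ M, 0 < M → p.Coprime M → ∀ s, SurfaceTate p M s → ε M s = 1
  /-- standard characters (Hodge-Riemann relations in characteristic zero) -/
  standard : ∀ M, 0 < M → p.Coprime M → ∀ q : ℕ, q.Prime → q ∣ M → ∀ s, Standard q M s → ε M s = 1
  /-- unions -/
  join : ∀ M, 0 < M → p.Coprime M → ∀ s t, A M s → A M t → ε M (s + t) = ε M s * ε M t
  /-- pull-back -/
  level : ∀ M N, 0 < M → 0 < N → p.Coprime M → p.Coprime N → ∀ s : Multiset (ZMod M), A M s →
    ε (N * M) (s.map fun a => ((N * a.val : ℕ) : ZMod (N * M))) = ε M s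

end Pool.Agent.Q59.EC.SignDefs
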