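import Pool.Agent.Q59.EC.Tab

/-!
# Witnesses given by lists, and the parity of the total number of entries
-/

namespace Pool.Agent.Q59.EC

open Finset Pool.Agent.H916R2 Pool.Agent.H916Q Pool.Agent.Y2.Cv
open Pool.Agent.H916T (IsTate SurfaceTate Standard W)
open Pool.Agent.H916Z (Link ZBase Rel0 addOrderOf_dvd_level)
open Pool.Agent.H916Y (Dead countP_iota surface_iota Srf)

variable {p : ℕ} {A : ∀ M : ℕ, Multiset (ZMod M) → Prop}

/-- a Hodge character with its supports -/
structure HW (L : ℕ) (l : List ℕ) (K : List (Finset ℕ)) : Prop where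
  hodge : IsHodge L ((l.map (fun x : ℕ => (x : ZMod L)) : List (ZMod L)) : Multiset (ZMod L))
  ne : l ≠ []
  sup : l.map (fun x => (L / Nat.gcd x L).primeFactors) = K

lemma hw_of {L : ℕ} {l : List ℕ} {K : List (Finset ℕ)} (hL : 0 < L)
    (h : hodgeL L l = true) (hne : l ≠ [])
    (hK : l.map (fun x => (L / Nat.gcd x L).primeFactors) = K) : HW L l K := by
  have hz : NeZero L := ⟨hL.ne'⟩
  exact ⟨hodgeL_sound h, hne, hK⟩

lemma count_list {k L M : ℕ} [NeZero L] [NeZero M] (hk : k * L = M) {l : List ℕ}
    {K : List (Finset ℕ)} (h : l.map (fun x => (L / Nat.gcd x L).primeFactors) = K)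
    (S : Finset ℕ) :
    ((((l.map (fun x : ℕ => (x : ZMod L)) : List (ZMod L)) : Multiset (ZMod L))).map
      (iota k : ZMod L → ZMod M)).countP (Supp S) = K.count S := by
  rw [countP_iota hk, Multiset.coe_countP, List.countP_map, ← h, List.count,
    List.countP_map]
  apply List.countP_congr
  intro x _
  simp only [Function.comp_apply, decide_eq_true_eq, beq_iff_eq]
  unfold Supp
  rw [ZMod.addOrderOf_coe _ (NeZero.ne L), Nat.gcd_comm]

/-- a removable character of degree `M` with the given supports -/
def WK (p : ℕ) (A : ∀ M : ℕ, Multiset (ZMod M) → Prop) (M : ℕ) (K : List (Finset ℕ)) : Prop :=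
  ∃ w : Multiset (ZMod M), Wit p A M w ∧ ∀ S : Finset ℕ, w.countP (Supp S) = K.count S

lemma AdmC.wk_surf (hA : AdmC p A) {k L M : ℕ} (hM : 0 < M) (hk : k * L = M)
    (hpM : p.Coprime M) {l : List ℕ} {K : List (Finset ℕ)} (h : Srf p L l K) : WK p A M K := by
  have hL : 0 < L := Nat.pos_of_ne_zero (by rintro rfl; simp at hk; omega)
  have hzL : NeZero L := ⟨hL.ne'⟩
  have hzM : NeZero M := ⟨hM.ne'⟩
  exact ⟨_, hA.wit_surface hpM (surface_iota hk hpM h.tate), count_list hk h.sup⟩

lemma AdmC.wk_hodge (hA : AdmC p A) {k L M : ℕ} (hM : 0 < M) (hk : k * L = M)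
    (hpM : p.Coprime M) (hgood : GoodDegree2 M) {l : List ℕ} {K : List (Finset ℕ)}
    (h : HW L l K) : WK p A M K := by
  have hL : 0 < L := Nat.pos_of_ne_zero (by rintro rfl; simp at hk; omega)
  have hzL : NeZero L := ⟨hL.ne'⟩
  have hzM : NeZero M := ⟨hM.ne'⟩
  refine ⟨_, hA.wit_hodge hpM hgood (h.hodge.iota hk) ?_, count_list hk h.sup⟩
  intro h0
  have h1 := congrArg Multiset.card h0
  rw [Multiset.card_map, Multiset.coe_card, List.length_map, Multiset.card_zero] at h1
  exact h.ne (List.length_eq_zero_iff.mp h1)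

lemma FixedC.wk {M : ℕ} {x : Multiset (ZMod M)} {G : List (Finset ℕ)} (hF : FixedC p A M x G)
    {K : List (Finset ℕ)} (hw : WK p A M K) (S0 : Finset ℕ) (h1 : Odd (K.count S0))
    (h2 : ∀ S ∈ G, Even (K.count S)) : FixedC p A M x (S0 :: G) := by
  obtain ⟨w, hw, hK⟩ := hw
  exact hF.step hw S0 (by rw [hK]; exact h1) (fun S hS => by rw [hK]; exact h2 S hS)

/-- two parities which are equal are made even by one witness -/
lemma FixedC.two {M : ℕ} {x : Multiset (ZMod M)} {G : List (Finset ℕ)}
    (hG : ∀ S ∈ G, Even (x.countP (Supp S))) {K : List (Finset ℕ)} (hw : WK p A M K)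
    (S1 S2 : Finset ℕ) (hsum : Even (x.countP (Supp S1) + x.countP (Supp S2)))
    (h1 : Odd (K.count S1)) (h2 : Odd (K.count S2)) (hK : ∀ S ∈ G, Even (K.count S)) :
    FixedC p A M x (S1 :: S2 :: G) := by
  by_cases hev : Even (x.countP (Supp S1))
  · have hev2 : Even (x.countP (Supp S2)) := (Nat.even_add.mp hsum).mp hev
    apply FixedC.start
    intro S hS
    simp only [List.mem_cons] at hS
    rcases hS with rfl | rfl | hS
    · exact hev
    · exact hev2
    · exact hG S hS
  · have hev2 : ¬ Even (x.countP (Supp S2)) := fun h' => hev ((Nat.even_add.mp hsum).mpr h')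
    obtain ⟨w, hw, hwK⟩ := hw
    refine ⟨{w}, ?_, ?_⟩
    · intro y hy
      rw [Multiset.mem_singleton.mp hy]
      exact hw
    · intro S hS
      rw [Multiset.sum_singleton, Multiset.countP_add, hwK]
      simp only [List.mem_cons] at hS
      rcases hS with rfl | rfl | hS
      · rw [Nat.even_add]
        exact ⟨fun h' => absurd h' hev, fun h' => absurd h' (Nat.not_even_iff_odd.mpr h1)⟩
      · rw [Nat.even_add]
        exact ⟨fun h' => absurd h' hev2, fun h' => absurd h' (Nat.not_even_iff_odd.mpr h2)⟩
      · exact (hG S hS).add (hK S hS)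

lemma countP_three {α : Type} (s : Multiset α) (P Q R T : α → Prop) [DecidablePred P]
    [DecidablePred Q] [DecidablePred R] [DecidablePred T]
    (h : ∀ a ∈ s, (if P a then 1 else 0) = (if Q a then 1 else 0) + (if R a then 1 else 0) +
      (if T a then 1 else 0)) : s.countP P = s.countP Q + s.countP R + s.countP T := by
  induction s using Multiset.induction_on with
  | empty => simp
  | cons a s ih =>
    rw [Multiset.countP_cons, Multiset.countP_cons, Multiset.countP_cons, Multiset.countP_cons,
      ih fun b hb => h b (Multiset.mem_cons_of_mem hb), h a (Multiset.mem_cons_self _ _)]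
    ring

/-- **The parity of the total number of the entries of odd order.** -/
theorem even_total {m q1 q2 : ℕ} (hm : 0 < m) (h4 : ¬ 4 ∣ m) {s : Multiset (ZMod m)}
    (hs : IsTate p m s) (h12 : q1 ≠ q2) (hq1 : q1 ≠ 2) (hq2 : q2 ≠ 2)
    (hpr : ∀ q, q.Prime → q ∣ m → q = 2 ∨ q = q1 ∨ q = q2) :
    Even (s.countP (Supp {q1}) + s.countP (Supp {q2}) + s.countP (Supp {q1, q2})) := by
  classical
  have hz : NeZero m := ⟨hm.ne'⟩
  have h := even_odd_orders h4 hs.2.1 hs.2.2.1
  rw [countP_three s (fun a => ¬ 2 ∣ addOrderOf a) (Supp {q1}) (Supp {q2}) (Supp {q1, q2})] at h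
  · exact h
  · intro a ha
    have ha0 : a ≠ 0 := fun h0 => hs.1 (h0 ▸ ha)
    have hord : addOrderOf a ≠ 1 := fun h1 => ha0 (AddMonoid.addOrderOf_eq_one_iff.mp h1)
    have hord0 : addOrderOf a ≠ 0 := (addOrderOf_pos a).ne'
    have hsub : ∀ q ∈ (addOrderOf a).primeFactors, q = 2 ∨ q = q1 ∨ q = q2 := fun q hq =>
      hpr q (Nat.prime_of_mem_primeFactors hq)
        ((Nat.dvd_of_mem_primeFactors hq).trans (addOrderOf_dvd_level a))
    have hne : (addOrderOf a).primeFactors.Nonempty := by
      rw [Nat.nonempty_primeFactors]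
      omega
    have h2 : 2 ∣ addOrderOf a ↔ 2 ∈ (addOrderOf a).primeFactors :=
      ⟨fun h => Nat.mem_primeFactors.mpr ⟨Nat.prime_two, h, hord0⟩,
        fun h => Nat.dvd_of_mem_primeFactors h⟩
    have e1 : ({q1} : Finset ℕ) ≠ {q2} := fun h => h12 (singleton_injective h)
    have e2 : ({q1} : Finset ℕ) ≠ {q1, q2} := fun h => h12.symm (by
      have : q2 ∈ ({q1} : Finset ℕ) := by rw [h]; simp
      exact mem_singleton.mp this)
    have e3 : ({q2} : Finset ℕ) ≠ {q1, q2} := fun h => h12 (by
      have : q1 ∈ ({q2} : Finset ℕ) := by rw [h]; simp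
      exact mem_singleton.mp this)
    have hSupp : ∀ X : Finset ℕ, Supp X a ↔ (addOrderOf a).primeFactors = X := fun X => Iff.rfl
    generalize (addOrderOf a).primeFactors = T at *
    by_cases h2T : 2 ∈ T
    · have n1 : ¬ Supp {q1} a := fun h => hq1 (by
        rw [(hSupp _).mp h] at h2T; exact (mem_singleton.mp h2T).symm)
      have n2 : ¬ Supp {q2} a := fun h => hq2 (by
        rw [(hSupp _).mp h] at h2T; exact (mem_singleton.mp h2T).symm)
      have n3 : ¬ Supp {q1, q2} a := fun h => by
        rw [(hSupp _).mp h, mem_insert, mem_singleton] at h2T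
        rcases h2T with h | h
        · exact hq1 h.symm
        · exact hq2 h.symm
      rw [if_neg n1, if_neg n2, if_neg n3, if_neg (not_not.mpr (h2.mpr h2T))]
    · have hsub' : ∀ q ∈ T, q = q1 ∨ q = q2 := fun q hq =>
        (hsub q hq).resolve_left (fun h => h2T (h ▸ hq))
      have hcases : T = {q1} ∨ T = {q2} ∨ T = {q1, q2} := by
        by_cases c1 : q1 ∈ T
        · by_cases c2 : q2 ∈ T
          · right; right
            ext q
            rw [mem_insert, mem_singleton]
            constructor
            · exact hsub' q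
            · rintro (rfl | rfl)
              · exact c1
              · exact c2
          · left
            ext q
            rw [mem_singleton]
            constructor
            · intro hq
              rcases hsub' q hq with h | h
              · exact h
              · rw [h] at hq; exact absurd hq c2
            · rintro rfl; exact c1
        · right; left
          have c2 : q2 ∈ T := by
            obtain ⟨q, hq⟩ := hne
            rcases hsub' q hq with h | h
            · rw [h] at hq; exact absurd hq c1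
            · rw [← h]; exact hq
          ext q
          rw [mem_singleton]
          constructor
          · intro hq
            rcases hsub' q hq with h | h
            · rw [h] at hq; exact absurd hq c1
            · exact h
          · rintro rfl; exact c2
      rw [if_pos (fun h => h2T (h2.mp h))]
      rcases hcases with h | h | h
      · rw [if_pos ((hSupp _).mpr h), if_neg (fun h' => e1 (h.symm.trans ((hSupp _).mp h'))),
          if_neg (fun h' => e2 (h.symm.trans ((hSupp _).mp h')))]
      · rw [if_neg (fun h' => e1.symm (h.symm.trans ((hSupp _).mp h'))), if_pos ((hSupp _).mpr h),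
          if_neg (fun h' => e3 (h.symm.trans ((hSupp _).mp h')))]
      · rw [if_neg (fun h' => e2.symm (h.symm.trans ((hSupp _).mp h'))),
          if_neg (fun h' => e3.symm (h.symm.trans ((hSupp _).mp h'))), if_pos ((hSupp _).mpr h)]

/-- starting from the character itself -/
lemma FixedC.start' {m k : ℕ} [NeZero m] [NeZero (k * m)] (s : Multiset (ZMod m))
    (G : List (Finset ℕ)) (h : ∀ S ∈ G, Even (s.countP (Supp S))) :
    FixedC p A (k * m) (s.map (iota k : ZMod m → ZMod (k * m))) G := by
  apply FixedC.start
  intro S hS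
  rw [countP_iota rfl]
  exact h S hS

end Pool.Agent.Q59.EC
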