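import Pool.Agent.Q59.EC.Both

/-!
# Evenness for the pairs of primes `5, 7` and `3, 17`
-/

namespace Pool.Agent.Q59.EC

open Finset Pool.Agent.H916R2 Pool.Agent.H916Q
open Pool.Agent.H916T (IsTate SurfaceTate Standard W)
open Pool.Agent.H916Z (Link ZBase Rel0)
open Pool.Agent.H916Y (Dead even_leg even_leg3 jac_of_mod)

instance fact7 : Fact (Nat.Prime 7) := ⟨by norm_num⟩
instance fact5 : Fact (Nat.Prime 5) := ⟨by norm_num⟩
instance fact17 : Fact (Nat.Prime 17) := ⟨by norm_num⟩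
instance fact3 : Fact (Nat.Prime 3) := ⟨by norm_num⟩

lemma cast_of_mod {p L c : ℕ} (h : p % L = c) : (p : ZMod L) = (c : ZMod L) := by
  rw [ZMod.natCast_eq_natCast_iff]
  show p % L = c % L
  rw [← h, Nat.mod_mod]

/-- the quadratic character modulo seven -/
def t7 (x : ZMod 7) : ℤ := if x = 1 ∨ x = 2 ∨ x = 4 then 1 else -1

/-- a function modulo five -/
def f5 (x : ZMod 5) : ℤ := if x = 1 then 6 else if x = 4 then -6 else 0

/-- a function modulo five -/
def g5 (x : ZMod 5) : ℤ := if x = 1 ∨ x = 3 then 1 else -1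

/-- the quadratic character modulo three -/
def t3c (x : ZMod 3) : ℤ := if x = 1 then 1 else -1

/-- a function modulo seventeen: `k` modulo two at `3 ^ k` for `k < 8`, extended to be odd -/
def f17 (x : ZMod 17) : ℤ :=
  if x = 3 ∨ x = 10 ∨ x = 5 ∨ x = 11 then 1 else
    if x = 14 ∨ x = 7 ∨ x = 12 ∨ x = 6 then -1 else 0

/-- a function modulo seventeen -/
def g17 (x : ZMod 17) : ℤ := f17 x - f17 (6 * x)

/-- an even function modulo seventeen, which changes the sign under `4` and `13` -/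
def a17 (x : ZMod 17) : ℤ := if x ^ 4 = 1 ∨ x ^ 4 = 13 then 1 else -1

lemma mem_pf' {n q : ℕ} (hn : n ≠ 0) (hq : q.Prime) (h : q ∣ n) : q ∈ n.primeFactors :=
  Nat.mem_primeFactors.mpr ⟨hq, h, hn⟩

lemma prod57 : ∏ q ∈ ({5, 7} : Finset ℕ), q = 35 := by decide
lemma prod3_17 : ∏ q ∈ ({3, 17} : Finset ℕ), q = 51 := by decide
lemma prod3_19 : ∏ q ∈ ({3, 19} : Finset ℕ), q = 57 := by decide

variable {n p : ℕ} [NeZero n] {s : Multiset (ZMod n)}

lemma even57_a (hn2 : ¬ 2 ∣ n) (h5 : 5 ∣ n) (h7 : 7 ∣ n)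
    (hpr : ∀ r, r.Prime → r ∣ n → r = 5 ∨ r = 7) (hp : p.Coprime n) (hs : Rel0 p s)
    (hc : p % 7 = 1 ∨ p % 7 = 2 ∨ p % 7 = 4) : Even (s.countP (Supp {5, 7})) := by
  rw [pair_comm]
  have hinv : ∀ x : ZMod 7, x ≠ 0 → t7 ((p : ZMod 7) * x) = t7 x := by
    rcases hc with h | h | h
    · rw [cast_of_mod h]; decide
    · rw [cast_of_mod h]; decide
    · rw [cast_of_mod h]; decide
  refine even_pair hn2 (by norm_num) (by norm_num) (by norm_num) h7 h5
    (fun r hr h => (hpr r hr h).symm) hp hs (fun x => 2 * t7 x) t7 (by decide) (by decide)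
    (by decide) (fun x hx => by rw [hinv x hx]) hinv (fun x _ => dvd_mul_right 2 _) (by decide)

lemma even57_b (hn2 : ¬ 2 ∣ n) (h5 : 5 ∣ n) (h7 : 7 ∣ n)
    (hpr : ∀ r, r.Prime → r ∣ n → r = 5 ∨ r = 7) (hp : p.Coprime n) (hs : Rel0 p s)
    (hc : p % 5 = 1) : Even (s.countP (Supp {5, 7})) := by
  refine even_pair hn2 (by norm_num) (by norm_num) (by norm_num) h5 h7 hpr hp hs f5 g5
    (by decide) (by decide) (by decide) ?_ ?_ (by decide) (by decide)
  · rw [cast_of_mod hc]; decide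
  · rw [cast_of_mod hc]; decide

lemma even57_c (h5 : 5 ∣ n) (h7 : 7 ∣ n)
    (hpr : ∀ r, r.Prime → r ∣ n → r = 5 ∨ r = 7) (hp : p.Coprime n) (hs : Rel0 p s)
    (hc : jacobiSym p 35 = 1) : Even (s.countP (Supp {5, 7})) := by
  have hn0 : n ≠ 0 := NeZero.ne n
  refine even_leg hp hs ?_ (by decide) ⟨5, by decide⟩ ?_ ?_ ?_
  · intro q hq
    simp only [mem_insert, mem_singleton] at hq
    rcases hq with rfl | rfl
    · exact mem_pf' hn0 (by norm_num) h5
    · exact mem_pf' hn0 (by norm_num) h7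
  · rw [prod57]; norm_num
  · rw [prod57]; exact hc
  · intro j hj hjS
    rcases hpr j (Nat.prime_of_mem_primeFactors hj) (Nat.dvd_of_mem_primeFactors hj) with h | h
    · exact absurd (by simp [h]) hjS
    · exact absurd (by simp [h]) hjS

lemma even317_a (hn2 : ¬ 2 ∣ n) (h3 : 3 ∣ n) (h17 : 17 ∣ n)
    (hpr : ∀ r, r.Prime → r ∣ n → r = 3 ∨ r = 17) (hp : p.Coprime n) (hs : Rel0 p s)
    (hc : p % 3 = 1) : Even (s.countP (Supp {3, 17})) := by
  have hinv : ∀ x : ZMod 3, x ≠ 0 → t3c ((p : ZMod 3) * x) = t3c x := by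
    rw [cast_of_mod hc]; decide
  refine even_pair hn2 (by norm_num) (by norm_num) (by norm_num) h3 h17 hpr hp hs
    (fun x => 8 * t3c x) t3c (by decide) (by decide) (by decide) (fun x hx => by rw [hinv x hx])
    hinv (fun x _ => Dvd.dvd.mul_right (by norm_num) _) (by decide)

lemma even317_b (hn2 : ¬ 2 ∣ n) (h3 : 3 ∣ n) (h17 : 17 ∣ n)
    (hpr : ∀ r, r.Prime → r ∣ n → r = 3 ∨ r = 17) (hp : p.Coprime n) (hs : Rel0 p s)
    (hc : p % 17 = 1) : Even (s.countP (Supp {3, 17})) := by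
  rw [pair_comm]
  refine even_pair hn2 (by norm_num) (by norm_num) (by norm_num) h17 h3
    (fun r hr h => (hpr r hr h).symm) hp hs (fun x => 2 * f17 x) g17 (by decide) (by decide)
    (by decide) ?_ ?_ (fun x _ => dvd_mul_right 2 _) (by decide)
  · rw [cast_of_mod hc]; decide
  · rw [cast_of_mod hc]; decide

lemma even317_c (h3 : 3 ∣ n) (h17 : 17 ∣ n)
    (hpr : ∀ r, r.Prime → r ∣ n → r = 3 ∨ r = 17) (hp : p.Coprime n) (hs : Rel0 p s)
    (hc : jacobiSym p 51 = 1) : Even (s.countP (Supp {3, 17})) := by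
  have hn0 : n ≠ 0 := NeZero.ne n
  refine even_leg hp hs ?_ (by decide) ⟨3, by decide⟩ ?_ ?_ ?_
  · intro q hq
    simp only [mem_insert, mem_singleton] at hq
    rcases hq with rfl | rfl
    · exact mem_pf' hn0 (by norm_num) h3
    · exact mem_pf' hn0 (by norm_num) h17
  · rw [prod3_17]; norm_num
  · rw [prod3_17]; exact hc
  · intro j hj hjS
    rcases hpr j (Nat.prime_of_mem_primeFactors hj) (Nat.dvd_of_mem_primeFactors hj) with h | h
    · exact absurd (by simp [h]) hjS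
    · exact absurd (by simp [h]) hjS

end Pool.Agent.Q59.EC
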