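import Pool.Agent.Q59.EC.Steps

/-!
# Evenness for `3, 17`, the remaining cases, and the tables of witnesses
-/

namespace Pool.Agent.Q59.EC

open Finset Pool.Agent.H916R2 Pool.Agent.H916Q Pool.Agent.Y2.Cv
open Pool.Agent.H916T (IsTate SurfaceTate Standard W)
open Pool.Agent.H916Z (Link ZBase Rel0 addOrderOf_dvd_level)
open Pool.Agent.H916Y (Dead countP_iota surface_iota Srf even_leg even_leg3 pf3 pf4 pf5 pf6 pf7 pf10
  pf12 pf13 pf15 pf20 pf21 pf30 pf33 pf39 pf60 pf66)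

variable {n p : ℕ} [NeZero n] {s : Multiset (ZMod n)}

/-- an even function modulo seventeen, which changes the sign under `4` and `13` -/
def b17 (x : ZMod 17) : ℤ :=
  if x = 1 ∨ x = 3 ∨ x = 9 ∨ x = 10 ∨ x = 16 ∨ x = 14 ∨ x = 8 ∨ x = 7 then 1 else -1

lemma sum_zero_of_neg {j : ℕ} [hj : Fact j.Prime] (hpj : p.Coprime j) (h : ZMod j → ℤ)
    (hh : ∀ x : ZMod j, x ≠ 0 → h ((p : ZMod j) * x) = - h x) (x : (ZMod j)ˣ) :
    ∑ y : (ZMod j)ˣ, h ((y : ZMod j) * (x : ZMod j)) = 0 := by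
  set u := ZMod.unitOfCoprime p hpj with hu
  have h1 : ∑ y : (ZMod j)ˣ, h ((y : ZMod j) * (x : ZMod j)) =
      ∑ y : (ZMod j)ˣ, - h ((y : ZMod j) * (x : ZMod j)) := by
    rw [← Equiv.sum_comp (Equiv.mulLeft u)]
    refine sum_congr rfl fun y _ => ?_
    rw [Equiv.coe_mulLeft, Units.val_mul, hu, ZMod.coe_unitOfCoprime, mul_assoc,
      hh _ (mul_ne_zero y.ne_zero x.ne_zero)]
  rw [sum_neg_distrib] at h1
  linarith

lemma even317_d (h3 : 3 ∣ n) (h17 : 17 ∣ n)
    (hpr : ∀ r, r.Prime → r ∣ n → r = 3 ∨ r = 17) (hp : p.Coprime n) (hs : Rel0 p s)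
    (hc3 : p % 3 = 2) (hc : p % 17 = 2 ∨ p % 17 = 8 ∨ p % 17 = 9 ∨ p % 17 = 15) :
    Even (s.countP (Supp {3, 17})) := by
  have hg : ∀ x : ZMod 3, x ≠ 0 → t3c ((p : ZMod 3) * x) = - t3c x := by
    rw [cast_of_mod hc3]; decide
  have hh : ∀ x : ZMod 17, x ≠ 0 → a17 ((p : ZMod 17) * x) = - a17 x := by
    rcases hc with h | h | h | h <;> (rw [cast_of_mod h]; decide)
  exact even_both (by norm_num) (by norm_num) (by norm_num) h3 h17 hpr hp hs t3c a17 (by decide)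
    (by decide) (sum_zero_of_neg (Nat.Coprime.coprime_dvd_right h17 hp) a17 hh) hg hh (by decide)
    (by decide)

lemma even317_e (h3 : 3 ∣ n) (h17 : 17 ∣ n)
    (hpr : ∀ r, r.Prime → r ∣ n → r = 3 ∨ r = 17) (hp : p.Coprime n) (hs : Rel0 p s)
    (hc3 : p % 3 = 2) (hc : p % 17 = 4 ∨ p % 17 = 13) :
    Even (s.countP (Supp {3, 17})) := by
  have hg : ∀ x : ZMod 3, x ≠ 0 → t3c ((p : ZMod 3) * x) = - t3c x := by
    rw [cast_of_mod hc3]; decide
  have hh : ∀ x : ZMod 17, x ≠ 0 → b17 ((p : ZMod 17) * x) = - b17 x := by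
    rcases hc with h | h <;> (rw [cast_of_mod h]; decide)
  exact even_both (by norm_num) (by norm_num) (by norm_num) h3 h17 hpr hp hs t3c b17 (by decide)
    (by decide) (sum_zero_of_neg (Nat.Coprime.coprime_dvd_right h17 hp) b17 hh) hg hh (by decide)
    (by decide)

lemma pf11 : Nat.primeFactors 11 = {11} := by
  simp [Nat.primeFactors, Nat.primeFactorsList_ofNat]
lemma pf17 : Nat.primeFactors 17 = {17} := by
  simp [Nat.primeFactors, Nat.primeFactorsList_ofNat]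
lemma pf19 : Nat.primeFactors 19 = {19} := by
  simp [Nat.primeFactors, Nat.primeFactorsList_ofNat]
lemma pf22 : Nat.primeFactors 22 = {2, 11} := by
  simp [Nat.primeFactors, Nat.primeFactorsList_ofNat]
lemma pf26 : Nat.primeFactors 26 = {2, 13} := by
  simp [Nat.primeFactors, Nat.primeFactorsList_ofNat]
lemma pf35 : Nat.primeFactors 35 = {5, 7} := by
  simp [Nat.primeFactors, Nat.primeFactorsList_ofNat]
lemma pf44 : Nat.primeFactors 44 = {2, 11} := by
  simp [Nat.primeFactors, Nat.primeFactorsList_ofNat]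
lemma pf51 : Nat.primeFactors 51 = {3, 17} := by
  simp [Nat.primeFactors, Nat.primeFactorsList_ofNat]
lemma pf52 : Nat.primeFactors 52 = {2, 13} := by
  simp [Nat.primeFactors, Nat.primeFactorsList_ofNat]
lemma pf57 : Nat.primeFactors 57 = {3, 19} := by
  simp [Nat.primeFactors, Nat.primeFactorsList_ofNat]

lemma w35 : HW 35 [1, 10, 12, 17, 21, 22, 26, 31]
    [{5, 7}, {7}, {5, 7}, {5, 7}, {5}, {5, 7}, {5, 7}, {5, 7}] :=
  hw_of (by norm_num) (by decide +kernel) (by simp)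
    (by simp only [List.map_cons, List.map_nil, Nat.reduceGcd, Nat.reduceDiv, pf5, pf7, pf35])

lemma w51 : HW 51 [1, 4, 10, 15, 18, 21, 28, 34, 37, 43, 46, 49]
    [{3, 17}, {3, 17}, {3, 17}, {17}, {17}, {17}, {3, 17}, {3}, {3, 17}, {3, 17}, {3, 17},
      {3, 17}] :=
  hw_of (by norm_num) (by decide +kernel) (by simp)
    (by simp only [List.map_cons, List.map_nil, Nat.reduceGcd, Nat.reduceDiv, pf3, pf17, pf51])

lemma w57 : HW 57 [1, 4, 9, 13, 16, 28, 30, 31, 49, 52, 54, 55]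
    [{3, 19}, {3, 19}, {19}, {3, 19}, {3, 19}, {3, 19}, {19}, {3, 19}, {3, 19}, {3, 19}, {19},
      {3, 19}] :=
  hw_of (by norm_num) (by decide +kernel) (by simp)
    (by simp only [List.map_cons, List.map_nil, Nat.reduceGcd, Nat.reduceDiv, pf3, pf19, pf57])

lemma w44 : HW 44 [11, 19, 29, 31, 42, 27, 23, 16, 15, 7]
    [{2}, {2, 11}, {2, 11}, {2, 11}, {2, 11}, {2, 11}, {2, 11}, {11}, {2, 11}, {2, 11}] :=
  hw_of (by norm_num) (by decide +kernel) (by simp)
    (by simp only [List.map_cons, List.map_nil, Nat.reduceGcd, Nat.reduceDiv, pf4, pf11, pf22,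
      pf44])

lemma w52 : HW 52 [17, 25, 37, 38, 39, 33, 29, 21, 13, 8]
    [{2, 13}, {2, 13}, {2, 13}, {2, 13}, {2}, {2, 13}, {2, 13}, {2, 13}, {2}, {13}] :=
  hw_of (by norm_num) (by decide +kernel) (by simp)
    (by simp only [List.map_cons, List.map_nil, Nat.reduceGcd, Nat.reduceDiv, pf4, pf13, pf26,
      pf52])

end Pool.Agent.Q59.EC
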