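import Pool.Agent.Q59.EC.TateNum

/-!
# Tate tensors are combinations of products of pairings and determinants
-/

namespace Pool.Agent.Q59.EC

open Finset Pool.Agent.H916R2 Pool.Agent.Q59.GC Pool.Agent.H204R3.SP
open Pool.Agent.H916T (IsTate)

variable {N : ℕ} {I : Type} {Λ : Labels N I} [DecidableEq I] {ε : Letter Λ → ℂ}

variable {κ : Type} [Fintype κ]

omit [DecidableEq I] in
/-- the parity of the number of the exponents -/
lemma even_exAll {L : Type} [Fintype L] (μ : L → I) {q : ℕ}
    (e : (Σ j : L, Fin (Λ.dim (μ j))) ⊕ (Fin q × Fin 2) ≃ κ) (h : Even (Fintype.card κ)) :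
    Even (Multiset.card (exAll Λ μ)) := by
  classical
  have h1 := Fintype.card_congr e
  rw [Fintype.card_sum, Fintype.card_sigma, Fintype.card_prod, Fintype.card_fin,
    Fintype.card_fin] at h1
  simp only [Fintype.card_fin] at h1
  rw [exAll_card]
  have h2 : ∑ j, Multiset.card (Λ.ex (μ j)) ≡ ∑ j, Λ.dim (μ j) [MOD 2] := by
    have h3 : ∀ j, Multiset.card (Λ.ex (μ j)) ≡ Λ.dim (μ j) [MOD 2] := by
      intro j
      have h4 := Λ.dim_eq (μ j)
      rw [Nat.ModEq]
      omega
    have h5 : ∀ S : Finset L, ∑ j ∈ S, Multiset.card (Λ.ex (μ j)) ≡ ∑ j ∈ S, Λ.dim (μ j)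
        [MOD 2] := by
      intro S
      induction S using Finset.induction_on with
      | empty => rfl
      | insert a S ha ih =>
        rw [sum_insert ha, sum_insert ha]
        exact (h3 a).add ih
    exact h5 univ
  rw [Nat.even_iff] at h ⊢
  rw [Nat.ModEq] at h2
  omega

variable [Fintype I] [DecidableEq κ]

/-- **Tate tensors are combinations of products of pairings and determinants whose exponents form
a Tate character.** -/
theorem mainT [NeZero N] {p : ℕ} (hp : p.Coprime N)
    (hε : ∀ x : Letter Λ, ¬ Λ.orth x.1 = true → ε (dual x) = -ε x)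
    (hε0 : ∀ x, ε x ≠ 0) {A : Multiset (ZMod N) → Prop}
    (hA : ∀ s : Multiset (ZMod N), IsTate p N s → s ≠ 0 → A s)
    {x : (κ → Letter Λ) → ℂ} (hx : IsTateTensor p ε x) : x ∈ algTensors A ε κ := by
  classical
  rw [← sum_part x]
  refine Submodule.sum_mem _ fun t _ => Submodule.sum_mem _ fun q _ => ?_
  by_cases h0 : part x t q = 0
  · rw [h0]; exact Submodule.zero_mem _
  obtain ⟨w0, hw0⟩ := Function.ne_iff.mp h0
  rw [Pi.zero_apply] at hw0
  have hpart : ∀ w, part x t q w ≠ 0 → ((fun k => (w k).1) = t ∧ pv w = q) ∧ x w ≠ 0 := by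
    intro w hw
    unfold part at hw
    split_ifs at hw with h
    · exact ⟨h, hw⟩
    · exact absurd rfl hw
  have heq : ∀ w, part x t q w ≠ 0 → ∀ (i : I) (a b : Fin (Λ.dim i)),
      net w ⟨i, a⟩ = net w ⟨i, b⟩ := fun w hw i a b => net_eq hx.inv (hpart w hw).2 i a b
  have hpar : ∀ w, part x t q w ≠ 0 → ∀ (i : I), Λ.orth i = true → ∀ (a b : Fin (Λ.dim i)),
      occ w ⟨i, a⟩ % 2 = occ w ⟨i, b⟩ % 2 :=
    fun w hw i hi a b => parity_eq hx.inv (hpart w hw).2 hi a b
  have hcore := core hε hε0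
    (part_gl (fun b c hb hbc hne w => root_rel hε hε0 hx.inv hb hbc hne w) t q)
    (part_so (fun b c hb hbc w => rot_rel hε0 hx.inv hb hbc w) t q)
    (fun w hw k => congrFun (hpart w hw).1.1 k) heq hpar hw0 (fun w hw z hz => by
      have h1 : pv w z = pv w0 z := by rw [(hpart w hw).1.2, (hpart w0 hw0).1.2]
      unfold pv at h1
      rw [if_pos hz, if_pos hz] at h1
      exact (ZMod.natCast_eq_natCast_iff' _ _ 2).mp h1)
  refine detSpan_le _ ?_ hcore
  by_cases hL : exAll Λ (fun j : Σ i : I, Fin (mult w0 i) => j.1) = 0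
  · exact Or.inl hL
  right
  have heven : Even (Multiset.card (exAll Λ (fun j : Σ i : I, Fin (mult w0 i) => j.1))) := by
    by_contra hodd
    apply h0
    have hbot : DetSpan ε (fun j : Σ i : I, Fin (mult w0 i) => j.1) κ = ⊥ := by
      unfold DetSpan
      rw [Submodule.span_eq_bot]
      rintro y ⟨r, ν, e, rfl⟩
      exact absurd (even_exAll _ e hx.even) hodd
    rw [hbot, Submodule.mem_bot] at hcore
    exact hcore
  refine hA _ (isTate_exAll _ heven fun u => ?_) hL
  rw [Fintype.sum_sigma]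
  have h1 := sum_excT hp (heq w0 hw0) u (hx.slope u w0 (hpart w0 hw0).2)
  rw [← h1]
  refine sum_congr rfl fun i _ => ?_
  change ∑ _y : Fin (mult w0 i), excT p Λ (u : ZMod N) i = _
  rw [sum_const, card_univ, Fintype.card_fin, nsmul_eq_mul]

end Pool.Agent.Q59.EC
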