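import Pool.Agent.Q59.GC.Main
import Pool.Agent.Q59.EC.Base

/-!
# Tate tensors: invariants of `D` satisfying the slope condition at `p`
-/

namespace Pool.Agent.Q59.EC

open Finset Pool.Agent.H916R2 Pool.Agent.Q59.GC Pool.Agent.H204R3.SP
open Pool.Agent.H916T (IsTate)

variable {N : ℕ} {I : Type} {Λ : Labels N I}

section Defs

variable [DecidableEq I] [Fintype I]

/-- A tensor with an even number of factors is a Tate tensor in characteristic `p` if it is
invariant under `D`, and if for every unit `t` (every `p`-adic valuation) the slope of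
the Frobenius on it is half the number of the factors: on the tensors invariant under `D` the
slope of a tensor factor which is a conjugate of `V_i` is the average over the powers `p ^ j` of the
numbers `hodge (p ^ j * t) i / dim i`. -/
structure IsTateTensor (p : ℕ) (ε : Letter Λ → ℂ) {κ : Type} [Fintype κ] [DecidableEq κ]
    (x : (κ → Letter Λ) → ℂ) : Prop where
  inv : ∀ g, InD ε g → act g x = x
  even : Even (Fintype.card κ)
  slope : ∀ (t : (ZMod N)ˣ) (w : κ → Letter Λ), x w ≠ 0 →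
    ∑ j ∈ range (orderOf (p : ZMod N)),
        ∑ k, hodge Λ ((p : ZMod N) ^ j * (t : ZMod N)) (w k).1 / Λ.dim (w k).1 =
      orderOf (p : ZMod N) * ((Fintype.card κ : ℚ) / 2)

end Defs

variable [NeZero N] {p : ℕ}

/-- the averaged excess -/
noncomputable def excT (p : ℕ) (Λ : Labels N I) (t : ZMod N) (i : I) : ℤ :=
  ∑ j ∈ range (orderOf (p : ZMod N)), exc Λ ((p : ZMod N) ^ j * t) i

lemma pow_unit (hp : p.Coprime N) (j : ℕ) (t : (ZMod N)ˣ) :
    ∃ u : (ZMod N)ˣ, (u : ZMod N) = (p : ZMod N) ^ j * (t : ZMod N) :=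
  ⟨(Pool.Agent.H916T.isUnit_p hp).unit ^ j * t, by
    rw [Units.val_mul, Units.val_pow_eq_pow_val, IsUnit.unit_spec]⟩

lemma excT_star (hp : p.Coprime N) (t : (ZMod N)ˣ) (i : I) :
    excT p Λ (t : ZMod N) (Λ.star i) = - excT p Λ (t : ZMod N) i := by
  unfold excT
  rw [← sum_neg_distrib]
  refine sum_congr rfl fun j _ => ?_
  obtain ⟨u, hu⟩ := pow_unit hp j t
  rw [← hu]
  exact exc_star u i

lemma excT_orth (hp : p.Coprime N) (t : (ZMod N)ˣ) {i : I} (hi : Λ.orth i = true) :
    excT p Λ (t : ZMod N) i = 0 := by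
  have := excT_star (Λ := Λ) hp t i
  rw [Λ.orth_star i hi] at this
  linarith

variable [DecidableEq I] [Fintype I]

variable {κ : Type} [Fintype κ] [DecidableEq κ]

omit [DecidableEq κ] in
/-- the sum of the excesses -/
lemma sum_excT (hp : p.Coprime N) {w : κ → Letter Λ} (heq : ∀ (i : I) (a b : Fin (Λ.dim i)),
    net w ⟨i, a⟩ = net w ⟨i, b⟩) (t : (ZMod N)ˣ)
    (ht : ∑ j ∈ range (orderOf (p : ZMod N)),
        ∑ k, hodge Λ ((p : ZMod N) ^ j * (t : ZMod N)) (w k).1 / Λ.dim (w k).1 =
      orderOf (p : ZMod N) * ((Fintype.card κ : ℚ) / 2)) :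
    ∑ i : I, (mult w i : ℤ) * excT p Λ (t : ZMod N) i = 0 := by
  classical
  have hN : (N : ℚ) ≠ 0 := by exact_mod_cast NeZero.ne N
  have hpos : ∀ x : Letter Λ, 0 < Λ.dim x.1 := fun x => (Nat.zero_le _).trans_lt x.2.2
  set g : Letter Λ → ℚ := fun x => (excT p Λ (t : ZMod N) x.1 : ℚ) / Λ.dim x.1 with hg
  have h1 : ∑ k, g (w k) = 0 := by
    rw [sum_comm] at ht
    have e1 : ∀ k, ∑ j ∈ range (orderOf (p : ZMod N)),
        hodge Λ ((p : ZMod N) ^ j * (t : ZMod N)) (w k).1 / Λ.dim (w k).1 =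
        orderOf (p : ZMod N) * (1 / 2 : ℚ) + g (w k) / (2 * N) := by
      intro k
      have e2 : ∀ j ∈ range (orderOf (p : ZMod N)),
          hodge Λ ((p : ZMod N) ^ j * (t : ZMod N)) (w k).1 / Λ.dim (w k).1 =
          1 / 2 + (exc Λ ((p : ZMod N) ^ j * (t : ZMod N)) (w k).1 : ℚ) / Λ.dim (w k).1 /
            (2 * N) := by
        intro j _
        obtain ⟨u, hu⟩ := pow_unit hp j t
        rw [← hu]
        exact hodge_eq u (hpos (w k))
      rw [sum_congr rfl e2, sum_add_distrib, sum_const, card_range, nsmul_eq_mul, ← sum_div,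
        ← sum_div]
      congr 1
      simp only [hg, excT]
      push_cast
      rfl
    rw [sum_congr rfl fun k _ => e1 k, sum_add_distrib, sum_const, card_univ, nsmul_eq_mul,
      ← sum_div] at ht
    have e2 : (∑ k, g (w k)) / (2 * N) = 0 := by linarith
    rcases div_eq_zero_iff.mp e2 with h | h
    · exact h
    · exfalso
      exact (mul_ne_zero two_ne_zero hN) h
  have h2 := sum_word_anti w g fun x => by
    rw [hg]
    change (excT p Λ (t : ZMod N) (dual x).1 : ℚ) / Λ.dim (dual x).1 = _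
    rw [dual_fst, excT_star hp, Λ.dim_star]
    push_cast
    ring
  rw [h1, mul_zero, ← univ_sigma_univ, sum_sigma] at h2
  have h3 : ∀ i : I, ∑ a : Fin (Λ.dim i), (net w ⟨i, a⟩ : ℚ) * g ⟨i, a⟩ =
      ((mult w i : ℚ) - mult w (Λ.star i)) * excT p Λ (t : ZMod N) i := by
    intro i
    by_cases ho : Λ.orth i = true
    · rw [excT_orth hp t ho]
      rw [sum_eq_zero fun a _ => by rw [net_orth w (x := ⟨i, a⟩) ho]; simp]
      simp
    by_cases hd : 0 < Λ.dim i
    · have e1 : ∀ a : Fin (Λ.dim i), (net w ⟨i, a⟩ : ℚ) * g ⟨i, a⟩ =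
          ((mult w i : ℚ) - mult w (Λ.star i)) * ((excT p Λ (t : ZMod N) i : ℚ) / Λ.dim i) := by
        intro a
        have := net_eq_mult heq (x := ⟨i, a⟩) ho
        rw [this]
        push_cast
        rfl
      rw [sum_congr rfl fun a _ => e1 a, sum_const, card_univ, Fintype.card_fin, nsmul_eq_mul]
      have hd' : (Λ.dim i : ℚ) ≠ 0 := by exact_mod_cast hd.ne'
      field_simp
    · have e1 : mult w i = 0 := by unfold mult; rw [dif_neg hd]
      have e2 : mult w (Λ.star i) = 0 := by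
        unfold mult
        rw [dif_neg]
        rw [Λ.dim_star]; exact hd
      rw [e1, e2]
      have : IsEmpty (Fin (Λ.dim i)) := by
        have h0 : Λ.dim i = 0 := by omega
        rw [h0]; infer_instance
      rw [univ_eq_empty, sum_empty]
      ring
  rw [sum_congr rfl fun i _ => h3 i] at h2
  have h4 : ∑ i : I, (mult w (Λ.star i) : ℚ) * excT p Λ (t : ZMod N) i =
      - ∑ i : I, (mult w i : ℚ) * excT p Λ (t : ZMod N) i := by
    rw [← sum_neg_distrib]
    let E : I ≃ I := ⟨Λ.star, Λ.star, Λ.star_star, Λ.star_star⟩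
    rw [← Equiv.sum_comp E]
    refine sum_congr rfl fun i _ => ?_
    change (mult w (Λ.star (Λ.star i)) : ℚ) * excT p Λ (t : ZMod N) (Λ.star i) = _
    rw [Λ.star_star, excT_star hp]
    push_cast
    ring
  have h5 : ∑ i : I, ((mult w i : ℚ) - mult w (Λ.star i)) * excT p Λ (t : ZMod N) i =
      ∑ i : I, (mult w i : ℚ) * excT p Λ (t : ZMod N) i -
        ∑ i : I, (mult w (Λ.star i) : ℚ) * excT p Λ (t : ZMod N) i := by
    rw [← sum_sub_distrib]
    exact sum_congr rfl fun i _ => by ring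
  rw [h5, h4] at h2
  have h6 : ∑ i : I, (mult w i : ℚ) * excT p Λ (t : ZMod N) i = 0 := by linarith
  exact_mod_cast h6

omit [DecidableEq I] [Fintype I] in
/-- a family with vanishing averaged excesses and an even number of exponents gives a Tate
character -/
lemma isTate_exAll {L : Type} [Fintype L] (μ : L → I)
    (heven : Even (Multiset.card (exAll Λ μ)))
    (h : ∀ t : (ZMod N)ˣ, ∑ j, excT p Λ (t : ZMod N) (μ j) = 0) : IsTate p N (exAll Λ μ) := by
  refine ⟨exAll_zero_notMem μ, heven, exAll_sum_zero μ, fun t => ?_⟩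
  have h0 : ∀ u : ZMod N, ((((exAll Λ μ).map fun a => (u * a).val).sum : ℕ) : ℤ) =
      ((exAll Λ μ).map fun a => ((u * a).val : ℤ)).sum := by
    intro u
    have h3 := map_multiset_sum (Nat.castAddMonoidHom ℤ)
      ((exAll Λ μ).map fun a => (u * a).val)
    rw [Multiset.map_map] at h3
    exact h3
  have h2 := h t
  unfold excT at h2
  rw [sum_comm] at h2
  have h3 : ∀ i ∈ range (orderOf (p : ZMod N)), ∑ j, exc Λ ((p : ZMod N) ^ i * (t : ZMod N)) (μ j) =
      2 * ((((exAll Λ μ).map fun a => ((p : ZMod N) ^ i * ((t : ZMod N) * a)).val).sum : ℕ) : ℤ) -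
        N * Multiset.card (exAll Λ μ) := by
    intro i _
    have e1 : ((exAll Λ μ).map fun a => ((p : ZMod N) ^ i * ((t : ZMod N) * a)).val) =
        (exAll Λ μ).map fun a => ((p : ZMod N) ^ i * (t : ZMod N) * a).val :=
      Multiset.map_congr rfl fun a _ => by rw [mul_assoc]
    rw [e1, h0 ((p : ZMod N) ^ i * (t : ZMod N)), exAll_card, exAll_sum]
    unfold exc
    rw [sum_sub_distrib, ← mul_sum, ← mul_sum]
    push_cast
    rfl
  rw [sum_congr rfl h3, sum_sub_distrib, sum_const, card_range, nsmul_eq_mul, ← mul_sum] at h2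
  have h4 : (2 : ℤ) * ((∑ j ∈ range (orderOf (p : ZMod N)),
      ((exAll Λ μ).map fun a => ((p : ZMod N) ^ j * ((t : ZMod N) * a)).val).sum : ℕ) : ℤ) =
      ((orderOf (p : ZMod N) * (N * Multiset.card (exAll Λ μ)) : ℕ) : ℤ) := by
    push_cast at h2 ⊢
    linarith
  exact_mod_cast h4

end Pool.Agent.Q59.EC
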